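import Pool.Agent.H81.EN.Bark

/-!
# Affineness

The boundary of a `ℚ`-acyclic surface supports an ample divisor (Fujita). The proof uses only
intersection numbers: `D` is connected and its components span the space of the divisors. From this
and the Bogomolov–Miyaoka–Yau inequality it follows that there is no affine line (Miyanishi,
Tsunoda; Gurjar, Miyanishi).
-/

set_option autoImplicit false

namespace Pool.H81.EN

open Finset

/-- An edge that leaves a set. -/
theorem exists_edge {ι : Type} {Γ : SimpleGraph ι} (p : ι → Prop) :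
    ∀ (u v : ι) (_ : Γ.Walk u v), p u → ¬ p v → ∃ x y, Γ.Adj x y ∧ p x ∧ ¬ p y := by
  intro u v w
  induction w with
  | nil => exact fun h h' => absurd h h'
  | @cons u w v h q ih =>
    intro hu hv
    by_cases hw : p w
    · exact ih hw hv
    · exact ⟨u, w, h, hu, hw⟩

namespace Completion

variable (S : Completion)

theorem dot_sum (x : S.N) (n : S.ι → ℝ) :
    S.dot x (∑ i, n i • S.cls (S.comp i)) = ∑ i, n i * S.dot x (S.cls (S.comp i)) := by
  rw [map_sum]
  exact Finset.sum_congr rfl fun i _ => by rw [map_smul, smul_eq_mul]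

theorem cls_psef (C : S.Curve) : S.Psef (S.cls C) := by
  intro y hy
  rw [S.dot_comm]
  exact hy C

theorem comp_ne_zero (i : S.ι) : S.cls (S.comp i) ≠ 0 := by
  intro h0
  have := S.adjunction i
  rw [h0] at this
  simp at this

theorem comp_dot_nonneg {i j : S.ι} (h : i ≠ j) :
    0 ≤ S.dot (S.cls (S.comp i)) (S.cls (S.comp j)) :=
  S.nonneg _ _ fun h' => h (S.comp_inj h')

/-- The first step: an effective divisor that is positive on the components of its support. -/
theorem start : ∃ z : S.ι → ℝ, (∀ i, 0 ≤ z i) ∧ (∃ i, 0 < z i) ∧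
    ∀ j, 0 < z j → 0 < S.dot (∑ i, z i • S.cls (S.comp i)) (S.cls (S.comp j)) := by
  classical
  obtain ⟨a, ha⟩ := S.span S.A
  have hAj : ∀ j, 0 < S.dot S.A (S.cls (S.comp j)) := fun j =>
    S.ample _ (S.cls_psef _) (S.comp_ne_zero j)
  refine ⟨fun i => max (a i) 0, fun i => le_max_right _ _, ?_, fun j hj => ?_⟩
  · by_contra hcon
    push Not at hcon
    have h1 : ∀ i, a i ≤ 0 := fun i => (le_max_left _ _).trans (hcon i)
    have hA0 : S.A ≠ 0 := by
      intro h0
      obtain ⟨i⟩ := S.tree.1.nonempty
      have := hAj i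
      rw [h0] at this
      simp at this
    have h2 := S.ample _ S.ample_psef hA0
    have h3 : S.dot S.A S.A = ∑ i, a i * S.dot S.A (S.cls (S.comp i)) := by
      conv_lhs => rw [ha]
      conv_rhs => rw [ha]
      rw [dot_sum]
    rw [h3] at h2
    have h4 : ∑ i, a i * S.dot S.A (S.cls (S.comp i)) ≤ 0 :=
      Finset.sum_nonpos fun i _ => mul_nonpos_of_nonpos_of_nonneg (h1 i) (hAj i).le
    linarith
  · have hj' : 0 < a j := by
      rcases lt_max_iff.1 hj with h | h
      · exact h
      · exact absurd h (lt_irrefl _)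
    have h1 : S.dot (∑ i, (max (a i) 0) • S.cls (S.comp i)) (S.cls (S.comp j)) =
        S.dot S.A (S.cls (S.comp j)) +
          ∑ i, (max (a i) 0 - a i) * S.dot (S.cls (S.comp j)) (S.cls (S.comp i)) := by
      conv_rhs => rw [ha]
      rw [S.dot_comm, dot_sum, S.dot_comm (∑ i, a i • S.cls (S.comp i)), dot_sum,
        ← Finset.sum_add_distrib]
      refine Finset.sum_congr rfl fun i _ => ?_
      ring
    rw [h1]
    have h2 : 0 ≤ ∑ i, (max (a i) 0 - a i) * S.dot (S.cls (S.comp j)) (S.cls (S.comp i)) := by
      refine Finset.sum_nonneg fun i _ => ?_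
      by_cases hij : j = i
      · rw [← hij, max_eq_left hj'.le, sub_self, zero_mul]
      · exact mul_nonneg (sub_nonneg.2 (le_max_left _ _)) (S.comp_dot_nonneg hij)
    have := hAj j
    linarith

/-- The support of the divisor grows. -/
theorem grow : ∀ (k : ℕ) (z : S.ι → ℝ), (univ.filter fun i => z i = 0).card = k →
    (∀ i, 0 ≤ z i) → (∃ i, 0 < z i) →
    (∀ j, 0 < z j → 0 < S.dot (∑ i, z i • S.cls (S.comp i)) (S.cls (S.comp j))) →
    ∃ b : S.ι → ℝ, (∀ i, 0 < b i) ∧
      ∀ j, 0 < S.dot (∑ i, b i • S.cls (S.comp i)) (S.cls (S.comp j)) := by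
  classical
  intro k
  induction k using Nat.strong_induction_on with
  | _ k ih =>
    intro z hk hz0 hz1 hz
    by_cases hall : ∀ i, 0 < z i
    · exact ⟨z, hall, fun j => hz j (hall j)⟩
    · push Not at hall
      obtain ⟨v0, hv0⟩ := hall
      obtain ⟨u0, hu0⟩ := hz1
      obtain ⟨w⟩ := S.tree.1.preconnected u0 v0
      obtain ⟨x, y, hxy, hx, hy⟩ := exists_edge (fun i => 0 < z i) u0 v0 w hu0 (not_lt.2 hv0)
      have hy0 : z y = 0 := le_antisymm (not_lt.1 hy) (hz0 y)
      -- the divisor is positive on the new component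
      have hZy : 0 < S.dot (∑ i, z i • S.cls (S.comp i)) (S.cls (S.comp y)) := by
        rw [S.dot_comm, dot_sum]
        refine Finset.sum_pos' (fun i _ => ?_) ⟨x, mem_univ x, ?_⟩
        · by_cases hiy : y = i
          · rw [← hiy, hy0, zero_mul]
          · exact mul_nonneg (hz0 i) (S.comp_dot_nonneg hiy)
        · rw [S.meet y x hxy.symm, mul_one]
          exact hx
      set r : ℝ := S.dot (∑ i, z i • S.cls (S.comp i)) (S.cls (S.comp y)) with hr
      set s : ℝ := |S.dot (S.cls (S.comp y)) (S.cls (S.comp y))| + 1 with hs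
      have hs0 : 0 < s := by positivity
      let z' : S.ι → ℝ := fun i => z i + if i = y then r / s else 0
      have hrs : 0 < r / s := div_pos hZy hs0
      have hz' : ∀ i, z i ≤ z' i := by
        intro i
        simp only [z']
        split_ifs
        · linarith
        · linarith
      have hzy : 0 < z' y := by
        simp only [z', hy0, zero_add]
        exact hrs
      have hdot : ∀ j, S.dot (∑ i, z' i • S.cls (S.comp i)) (S.cls (S.comp j)) =
          S.dot (∑ i, z i • S.cls (S.comp i)) (S.cls (S.comp j)) +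
            r / s * S.dot (S.cls (S.comp y)) (S.cls (S.comp j)) := by
        intro j
        rw [S.dot_comm, dot_sum, S.dot_comm (∑ i, z i • S.cls (S.comp i)), dot_sum,
          S.dot_comm (S.cls (S.comp y))]
        simp only [z', add_mul, Finset.sum_add_distrib, ite_mul, zero_mul,
          Finset.sum_ite_eq', Finset.mem_univ, if_true]
      refine ih _ ?_ z' rfl (fun i => (hz0 i).trans (hz' i)) ⟨y, hzy⟩ (fun j hj => ?_)
      · rw [← hk]
        refine Finset.card_lt_card ?_
        rw [Finset.ssubset_iff_of_subset]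
        · refine ⟨y, by simp [hy0], ?_⟩
          simp only [Finset.mem_filter, Finset.mem_univ, true_and]
          exact hzy.ne'
        · intro i hi
          simp only [Finset.mem_filter, Finset.mem_univ, true_and] at hi ⊢
          exact le_antisymm (by rw [← hi]; exact hz' i) (hz0 i)
      · rw [hdot]
        by_cases hjy : j = y
        · rw [hjy, ← hr]
          have h1 : -s < S.dot (S.cls (S.comp y)) (S.cls (S.comp y)) := by
            have := neg_abs_le (S.dot (S.cls (S.comp y)) (S.cls (S.comp y)))
            rw [hs]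
            linarith
          have h2 : r / s * (-s) < r / s * S.dot (S.cls (S.comp y)) (S.cls (S.comp y)) :=
            mul_lt_mul_of_pos_left h1 hrs
          have h3 : r / s * (-s) = -r := by
            field_simp
          linarith
        · have h1 : 0 < z j := by
            have h2 : z' j = z j := by simp only [z', if_neg hjy, add_zero]
            rw [← h2]
            exact hj
          have h2 := hz j h1
          have h3 := mul_nonneg hrs.le (S.comp_dot_nonneg (fun h => hjy h.symm) : 0 ≤
            S.dot (S.cls (S.comp y)) (S.cls (S.comp j)))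
          linarith

/-- The boundary is not a chain: it has a branching point. -/
theorem exists_branching : ∃ i, 3 ≤ valency S.Γ i := by
  classical
  obtain ⟨z, hz0, hz1, hz⟩ := S.start
  obtain ⟨b, hb, hbj⟩ := S.grow _ z rfl hz0 hz1 hz
  obtain ⟨i0⟩ := S.tree.1.nonempty
  obtain ⟨i, -, hi⟩ := Finset.exists_max_image (univ : Finset S.ι) b ⟨i0, mem_univ i0⟩
  refine ⟨i, ?_⟩
  by_contra hv
  have hv2 : valency S.Γ i ≤ 2 := by omega
  have h1 := hbj i
  rw [sum_dot] at h1
  have h2 : nsum S.Γ b i ≤ (valency S.Γ i : ℝ) * b i := by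
    have := Finset.sum_le_card_nsmul (S.Γ.neighborFinset i) b (b i) fun w _ => hi w (mem_univ w)
    rw [SimpleGraph.card_neighborFinset_eq_degree, ← valency_eq, nsmul_eq_mul] at this
    exact this
  have h3 := S.two_le i hv2
  have h4 : (valency S.Γ i : ℝ) ≤ 2 := by exact_mod_cast hv2
  have h5 := hb i
  nlinarith

/-- The boundary supports an ample divisor: `V \ D` is affine. -/
theorem affine : ∃ b : S.ι → ℝ, (∀ i, 0 < b i) ∧
    ∀ x, S.Psef x → x ≠ 0 → 0 < S.dot (∑ i, b i • S.cls (S.comp i)) x := by
  classical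
  obtain ⟨z, hz0, hz1, hz⟩ := S.start
  obtain ⟨b, hb, hbj⟩ := S.grow _ z rfl hz0 hz1 hz
  refine ⟨b, hb, fun x hx h0 => ?_⟩
  by_contra hneg
  push Not at hneg
  obtain ⟨a, ha⟩ := S.span S.A
  have key : ∀ k, S.dot x (S.cls (S.comp k)) = 0 := by
    intro k
    obtain ⟨j0, -, hj0⟩ := Finset.exists_min_image (univ : Finset S.ι)
      (fun j => S.dot (∑ i, b i • S.cls (S.comp i)) (S.cls (S.comp j))) ⟨k, mem_univ k⟩
    set m : ℝ := S.dot (∑ i, b i • S.cls (S.comp i)) (S.cls (S.comp j0)) with hm
    have hm0 : 0 < m := hbj j0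
    set M : ℝ := ∑ j, |S.dot (S.cls (S.comp k)) (S.cls (S.comp j))| + 1 with hM
    have hM0 : 0 < M := by positivity
    have hMj : ∀ j, |S.dot (S.cls (S.comp k)) (S.cls (S.comp j))| ≤ M := by
      intro j
      have := Finset.single_le_sum
        (f := fun j => |S.dot (S.cls (S.comp k)) (S.cls (S.comp j))|)
        (fun j _ => abs_nonneg _) (mem_univ j)
      rw [hM]
      linarith
    set δ : ℝ := min (m / M) (b k) with hδ
    have hδ0 : 0 < δ := lt_min (div_pos hm0 hM0) (hb k)
    have hδM : δ * M ≤ m := by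
      have h1 : δ ≤ m / M := min_le_left _ _
      rwa [le_div_iff₀ hM0] at h1
    -- the perturbed class is nef
    have hnef : ∀ σ : ℝ, |σ| = δ →
        S.Nef (∑ i, b i • S.cls (S.comp i) + σ • S.cls (S.comp k)) := by
      intro σ hσ C
      rw [map_add, LinearMap.add_apply, map_smul, LinearMap.smul_apply, smul_eq_mul]
      by_cases hC : ∃ j, S.comp j = C
      · obtain ⟨j, rfl⟩ := hC
        have h1 := hj0 j (mem_univ j)
        have h2 : |σ * S.dot (S.cls (S.comp k)) (S.cls (S.comp j))| ≤ m := by
          rw [abs_mul, hσ]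
          exact (mul_le_mul_of_nonneg_left (hMj j) hδ0.le).trans hδM
        have h3 := (abs_le.1 h2).1
        change m ≤ S.dot (∑ i, b i • S.cls (S.comp i)) (S.cls (S.comp j)) at h1
        linarith
      · push Not at hC
        have h1 : b k * S.dot (S.cls (S.comp k)) (S.cls C) ≤
            S.dot (∑ i, b i • S.cls (S.comp i)) (S.cls C) := by
          rw [S.dot_comm (∑ i, b i • S.cls (S.comp i)), dot_sum, S.dot_comm (S.cls (S.comp k))]
          exact Finset.single_le_sum (f := fun i => b i * S.dot (S.cls C) (S.cls (S.comp i)))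
            (fun i _ => mul_nonneg (hb i).le (S.nonneg _ _ (hC i).symm)) (mem_univ k)
        have h2 : 0 ≤ S.dot (S.cls (S.comp k)) (S.cls C) := S.nonneg _ _ (hC k)
        have h3 : -(b k) ≤ σ := by
          have h4 : δ ≤ b k := min_le_right _ _
          have h5 := neg_abs_le σ
          linarith
        have h4 := mul_le_mul_of_nonneg_right h3 h2
        linarith
    have h1 := hx _ (hnef δ (abs_of_pos hδ0))
    have h2 := hx _ (hnef (-δ) (by rw [abs_neg, abs_of_pos hδ0]))
    rw [map_add, map_smul, smul_eq_mul, S.dot_comm x (∑ i, b i • S.cls (S.comp i))] at h1 h2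
    nlinarith
  have h1 := S.ample x hx h0
  rw [ha, S.dot_comm, dot_sum, Finset.sum_eq_zero fun i _ => by rw [key i, mul_zero]] at h1
  exact lt_irrefl _ h1

/-- There is no affine line. -/
theorem no_line (h : S.BMY) (C : S.Curve) : ¬ S.IsLine C := by
  intro hC
  obtain ⟨ε, hε, hbig⟩ := S.big
  have hAnef : S.Nef (ε • S.A) := by
    intro C'
    rw [map_smul, LinearMap.smul_apply, smul_eq_mul]
    refine mul_nonneg hε.le ?_
    by_cases h0 : S.cls C' = 0
    · rw [h0, map_zero]
    · exact (S.ample _ (S.cls_psef C') h0).le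
  have hps : S.Psef (S.K + S.D + S.cls C - ε • S.A) := by
    intro y hy
    have h1 := hbig y hy
    have h2 : S.K + S.D + S.cls C - ε • S.A =
        (S.K + ∑ i, S.cls (S.comp i) - ε • S.A) + S.cls C := by
      rw [D]
      abel
    rw [h2, map_add, LinearMap.add_apply]
    exact add_nonneg h1 (S.cls_psef C y hy)
  have h1 := h.2 C hC _ hAnef hps
  rw [map_smul, smul_eq_mul, map_smul, LinearMap.smul_apply, smul_eq_mul] at h1
  have hA0 : S.A ≠ 0 := by
    intro h0
    obtain ⟨i⟩ := S.tree.1.nonempty
    have := S.ample _ (S.cls_psef (S.comp i)) (S.comp_ne_zero i)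
    rw [h0] at this
    simp at this
  have h2 := S.ample _ S.ample_psef hA0
  have h3 := mul_pos hε (mul_pos hε h2)
  linarith

end Completion

end Pool.H81.EN
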