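import Pool.Agent.H81.EN.Graph

/-!
# The bark

The maximum principle for functions on the twigs, the components of valency at most `2`, existence,
uniqueness and nonnegativity of the bark.
-/

set_option autoImplicit false

namespace Pool.H81.EN

open Finset

section Graph

variable {ι : Type}

theorem twig_valency {Γ : SimpleGraph ι} {v : ι} (h : Twig Γ v) : valency Γ v ≤ 2 := by
  obtain ⟨l, p, -, hp⟩ := h
  exact hp v (by simp)

theorem twig_of_adj {Γ : SimpleGraph ι} {v w : ι} (h : Twig Γ w) (hvw : Γ.Adj v w)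
    (hv : valency Γ v ≤ 2) : Twig Γ v := by
  obtain ⟨l, p, hl, hp⟩ := h
  refine ⟨l, SimpleGraph.Walk.cons hvw p, hl, fun x hx => ?_⟩
  rw [SimpleGraph.Walk.support_cons, List.mem_cons] at hx
  rcases hx with rfl | hx
  · exact hv
  · exact hp x hx

theorem twig_of_leaf {Γ : SimpleGraph ι} {v : ι} (h : valency Γ v = 1) : Twig Γ v :=
  ⟨v, SimpleGraph.Walk.nil, h, fun x hx => by
    rw [SimpleGraph.Walk.support_nil, List.mem_singleton] at hx
    rw [hx, h]
    omega⟩

variable [Fintype ι]

theorem valency_pos {Γ : SimpleGraph ι} {v w : ι} (h : Γ.Adj v w) : 1 ≤ valency Γ v := by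
  classical
  rw [valency_eq]
  exact (Γ.degree_pos_iff_exists_adj v).2 ⟨w, h⟩

theorem twig_pos {Γ : SimpleGraph ι} {v : ι} (h : Twig Γ v) : 1 ≤ valency Γ v := by
  obtain ⟨l, p, hl, hp⟩ := h
  cases p with
  | nil => omega
  | cons h _ => exact valency_pos h

/-- The maximum principle on the twigs. -/
theorem max_principle {Γ : SimpleGraph ι} [DecidableRel Γ.Adj] {a x : ι → ℝ}
    (ha : ∀ w, Twig Γ w → 2 ≤ a w) (hx0 : ∀ i, ¬ Twig Γ i → x i ≤ 0)
    (hx : ∀ j, Twig Γ j → a j * x j ≤ nsum Γ x j) : ∀ i, x i ≤ 0 := by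
  intro i
  obtain ⟨v, -, hv⟩ := Finset.exists_max_image (univ : Finset ι) x ⟨i, mem_univ i⟩
  by_contra hi
  push Not at hi
  have hM : 0 < x v := lt_of_lt_of_le hi (hv i (mem_univ i))
  have hvt : Twig Γ v := by
    by_contra h
    have := hx0 v h
    linarith
  -- the walk
  have key : ∀ (u l : ι) (p : Γ.Walk u l), valency Γ l = 1 → (∀ w ∈ p.support, valency Γ w ≤ 2) →
      x u = x v → False := by
    intro u l p
    induction p with
    | @nil u =>
      intro hl _ hu
      have ht := twig_of_leaf hl
      have h1 := hx u ht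
      have h2 := ha u ht
      rw [valency_eq, ← SimpleGraph.card_neighborFinset_eq_degree] at hl
      have h3 : nsum Γ x u ≤ x v := by
        have := Finset.sum_le_card_nsmul (Γ.neighborFinset u) x (x v)
          (fun w _ => hv w (mem_univ w))
        rw [hl] at this
        simpa [nsum] using this
      rw [hu] at h1
      nlinarith
    | @cons u w l huw p ih =>
      intro hl hp hu
      have ht : Twig Γ u := ⟨l, SimpleGraph.Walk.cons huw p, hl, hp⟩
      refine ih hl (fun y hy => hp y (by simp [hy])) ?_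
      have h1 := hx u ht
      have h2 := ha u ht
      have h3 := twig_valency ht
      rw [valency_eq, ← SimpleGraph.card_neighborFinset_eq_degree] at h3
      have h4 : (x v - x w) + nsum Γ x u ≤ ((Γ.neighborFinset u).card : ℝ) * x v := by
        have h5 : ((Γ.neighborFinset u).card : ℝ) * x v - nsum Γ x u =
            ∑ y ∈ Γ.neighborFinset u, (x v - x y) := by
          rw [Finset.sum_sub_distrib, Finset.sum_const, nsmul_eq_mul, nsum]
        have h6 : x v - x w ≤ ∑ y ∈ Γ.neighborFinset u, (x v - x y) := by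
          refine Finset.single_le_sum (f := fun y => x v - x y)
            (fun y _ => sub_nonneg.2 (hv y (mem_univ y))) ?_
          simpa using huw
        linarith
      have h7 : ((Γ.neighborFinset u).card : ℝ) ≤ 2 := by exact_mod_cast h3
      have h8 := hv w (mem_univ w)
      rw [hu] at h1
      nlinarith
  obtain ⟨l, p, hl, hp⟩ := hvt
  exact key v l p hl hp rfl

/-- The operator of the twigs. -/
noncomputable def op (Γ : SimpleGraph ι) [DecidableRel Γ.Adj] [DecidablePred (Twig Γ)]
    (a : ι → ℝ) : (ι → ℝ) →ₗ[ℝ] (ι → ℝ) where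
  toFun x := fun j => if Twig Γ j then a j * x j - nsum Γ x j else x j
  map_add' x y := by
    funext j
    simp only [Pi.add_apply, nsum, Finset.sum_add_distrib]
    split_ifs <;> ring
  map_smul' c x := by
    funext j
    simp only [Pi.smul_apply, smul_eq_mul, nsum, RingHom.id_apply, ← Finset.mul_sum]
    split_ifs <;> ring

theorem nsum_neg (Γ : SimpleGraph ι) [DecidableRel Γ.Adj] (x : ι → ℝ) (j : ι) :
    nsum Γ (fun i => -x i) j = -nsum Γ x j := by
  rw [nsum, nsum, Finset.sum_neg_distrib]

/-- The Dirichlet problem on the twigs. -/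
theorem exists_sol (Γ : SimpleGraph ι) [DecidableRel Γ.Adj] {a : ι → ℝ}
    (ha : ∀ w, Twig Γ w → 2 ≤ a w) (b : ι → ℝ) :
    ∃ x : ι → ℝ, (∀ i, ¬ Twig Γ i → x i = 0) ∧ ∀ j, Twig Γ j → a j * x j - nsum Γ x j = b j := by
  classical
  have hinj : Function.Injective (op Γ a) := by
    rw [injective_iff_map_eq_zero]
    intro x hx
    have h0 : ∀ i, ¬ Twig Γ i → x i = 0 := by
      intro i hi
      have := congrFun hx i
      simpa [op, hi] using this
    have h1 : ∀ j, Twig Γ j → a j * x j - nsum Γ x j = 0 := by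
      intro j hj
      have := congrFun hx j
      simpa [op, hj] using this
    have h2 := max_principle ha (fun i hi => (h0 i hi).le) (fun j hj => by
      have := h1 j hj
      linarith)
    have h3 := max_principle (x := fun i => -x i) ha (fun i hi => by simp [h0 i hi])
      (fun j hj => by
        have := h1 j hj
        rw [nsum_neg]
        linarith)
    funext i
    have := h2 i
    have := h3 i
    simp only [Pi.zero_apply]
    linarith
  obtain ⟨x, hx⟩ := (LinearMap.injective_iff_surjective.1 hinj) fun j => if Twig Γ j then b j else 0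
  refine ⟨x, fun i hi => ?_, fun j hj => ?_⟩
  · have := congrFun hx i
    simpa [op, hi] using this
  · have := congrFun hx j
    simpa [op, hj] using this

/-- Uniqueness. -/
theorem sol_unique (Γ : SimpleGraph ι) [DecidableRel Γ.Adj] {a b x y : ι → ℝ}
    (ha : ∀ w, Twig Γ w → 2 ≤ a w) (hx0 : ∀ i, ¬ Twig Γ i → x i = 0)
    (hx : ∀ j, Twig Γ j → a j * x j - nsum Γ x j = b j) (hy0 : ∀ i, ¬ Twig Γ i → y i = 0)
    (hy : ∀ j, Twig Γ j → a j * y j - nsum Γ y j = b j) : x = y := by
  have hs : ∀ (u v : ι → ℝ), (∀ i, ¬ Twig Γ i → u i = 0) →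
      (∀ j, Twig Γ j → a j * u j - nsum Γ u j = b j) → (∀ i, ¬ Twig Γ i → v i = 0) →
      (∀ j, Twig Γ j → a j * v j - nsum Γ v j = b j) → ∀ i, u i - v i ≤ 0 := by
    intro u v hu0 hu hv0 hv
    refine max_principle (x := fun i => u i - v i) ha (fun i hi => ?_) (fun j hj => ?_)
    · simp [hu0 i hi, hv0 i hi]
    · have h1 := hu j hj
      have h2 := hv j hj
      have h3 : nsum Γ (fun i => u i - v i) j = nsum Γ u j - nsum Γ v j := by
        rw [nsum, nsum, nsum, Finset.sum_sub_distrib]
      rw [h3]
      linarith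
  funext i
  have h1 := hs x y hx0 hx hy0 hy i
  have h2 := hs y x hy0 hy hx0 hx i
  linarith

end Graph

namespace Completion

variable (S : Completion)

/-- Minus the self-intersection number of a component. -/
def a (i : S.ι) : ℝ := - S.dot (S.cls (S.comp i)) (S.cls (S.comp i))

theorem sum_dot [DecidableRel S.Γ.Adj] (n : S.ι → ℝ) (j : S.ι) :
    S.dot (∑ i, n i • S.cls (S.comp i)) (S.cls (S.comp j)) = nsum S.Γ n j - S.a j * n j := by
  classical
  have h1 : ∀ i, S.dot (n i • S.cls (S.comp i)) (S.cls (S.comp j)) =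
      (if S.Γ.Adj j i then n i else 0) + if i = j then - S.a j * n j else 0 := by
    intro i
    rw [map_smul, LinearMap.smul_apply, smul_eq_mul]
    by_cases hij : i = j
    · subst hij
      simp only [SimpleGraph.irrefl, if_false, if_true, zero_add, a]
      ring
    · by_cases hadj : S.Γ.Adj j i
      · rw [S.meet i j hadj.symm]
        simp [hij, hadj]
      · rw [S.disjoint i j hij (fun h => hadj h.symm)]
        simp [hij, hadj]
  rw [map_sum, LinearMap.sum_apply, Finset.sum_congr rfl (fun i _ => h1 i),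
    Finset.sum_add_distrib, Finset.sum_ite_eq' univ j, if_pos (mem_univ j), nsum,
    ← Finset.sum_filter]
  have h2 : (univ.filter fun i => S.Γ.Adj j i) = S.Γ.neighborFinset j := by
    ext i
    simp
  rw [h2]
  ring

theorem D_dot (j : S.ι) :
    S.dot S.D (S.cls (S.comp j)) = valency S.Γ j - S.a j := by
  classical
  have h := S.sum_dot (fun _ => 1) j
  simp only [one_smul] at h
  rw [D, h, nsum, Finset.sum_const, SimpleGraph.card_neighborFinset_eq_degree, valency_eq]
  simp

theorem KD_dot (j : S.ι) :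
    S.dot (S.K + S.D) (S.cls (S.comp j)) = (valency S.Γ j : ℝ) - 2 := by
  have h := S.adjunction j
  rw [map_add, LinearMap.add_apply, D_dot, a]
  linarith

theorem KD_pos {x : S.N} (hx : S.Nef x) (h0 : x ≠ 0) : 0 < S.dot (S.K + S.D) x := by
  obtain ⟨ε, hε, h⟩ := S.big
  have h1 := h x hx
  rw [map_sub, LinearMap.sub_apply, map_smul, LinearMap.smul_apply, smul_eq_mul] at h1
  have h2 := mul_pos hε (S.ample_nef x hx h0)
  rw [D]
  linarith

/-- The components of valency at most `2` have self-intersection number at most `-2`. -/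
theorem two_le (i : S.ι) (h : valency S.Γ i ≤ 2) : 2 ≤ S.a i := by
  obtain ⟨m, hm⟩ := S.integral (S.comp i) (S.comp i)
  have h1 : m < 0 := by
    by_contra hneg
    push Not at hneg
    have hnef : ∀ C, 0 ≤ S.dot (S.cls (S.comp i)) (S.cls C) := by
      intro C
      by_cases hC : S.comp i = C
      · rw [← hC, hm]
        exact_mod_cast hneg
      · exact S.nonneg _ _ hC
    have hne : S.cls (S.comp i) ≠ 0 := by
      intro h0
      have := S.adjunction i
      rw [h0] at this
      simp at this
    have h2 := S.KD_pos hnef hne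
    have h3 := S.KD_dot i
    rw [h3] at h2
    have : (valency S.Γ i : ℝ) ≤ 2 := by exact_mod_cast h
    linarith
  have h2 : m ≠ -1 := by
    rintro rfl
    exact S.minimal i h (by rw [hm]; simp)
  have h3 : m ≤ -2 := by omega
  have h4 : (m : ℝ) ≤ -2 := by exact_mod_cast h3
  rw [a, hm]
  linarith

theorem pos_dot [DecidableRel S.Γ.Adj] (n : S.ι → ℝ) (j : S.ι) :
    S.dot (S.pos n) (S.cls (S.comp j)) =
      (valency S.Γ j : ℝ) - 2 - (nsum S.Γ n j - S.a j * n j) := by
  rw [pos, map_sub, LinearMap.sub_apply, KD_dot, sum_dot]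

theorem isBark_iff [DecidableRel S.Γ.Adj] (n : S.ι → ℝ) :
    S.IsBark n ↔ (∀ i, ¬ Twig S.Γ i → n i = 0) ∧
      ∀ j, Twig S.Γ j → S.a j * n j - nsum S.Γ n j = 2 - (valency S.Γ j : ℝ) := by
  refine and_congr Iff.rfl (forall_congr' fun j => imp_congr_right fun _ => ?_)
  rw [pos_dot]
  constructor <;> intro h <;> linarith

theorem bark_exists : ∃ n, S.IsBark n := by
  classical
  obtain ⟨n, hn⟩ := exists_sol S.Γ (a := S.a) (fun w hw => S.two_le w (twig_valency hw))
    (fun j => 2 - (valency S.Γ j : ℝ))
  exact ⟨n, (S.isBark_iff n).2 hn⟩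

theorem bark_unique {n n' : S.ι → ℝ} (hn : S.IsBark n) (hn' : S.IsBark n') : n = n' := by
  classical
  rw [isBark_iff] at hn hn'
  exact sol_unique S.Γ (fun w hw => S.two_le w (twig_valency hw)) hn.1 hn.2 hn'.1 hn'.2

theorem bark_nonneg {n : S.ι → ℝ} (hn : S.IsBark n) (i : S.ι) : 0 ≤ n i := by
  classical
  rw [isBark_iff] at hn
  have := max_principle (a := S.a) (x := fun i => -n i) (fun w hw => S.two_le w (twig_valency hw))
    (fun i hi => by simp [hn.1 i hi]) (fun j hj => by
      have h1 := hn.2 j hj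
      have h2 : (valency S.Γ j : ℝ) ≤ 2 := by exact_mod_cast twig_valency hj
      rw [nsum_neg]
      linarith) i
  linarith

/-- The coefficient of the last component of a twig is at most `1 / 2`. -/
theorem bark_last {n : S.ι → ℝ} (hn : S.IsBark n) {i j : S.ι} (hij : S.Γ.Adj i j)
    (hi : 3 ≤ valency S.Γ i) (hj : Twig S.Γ j) : n j ≤ 1 / 2 := by
  classical
  have h := (S.isBark_iff n).1 hn
  refine last_le (a := S.a) (fun w hw => S.two_le w hw) (fun w hw => ?_) (S.bark_nonneg hn) hij hi
    (h.1 i fun ht => ?_) hj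
  · have := h.2 w hw
    linarith
  · have := twig_valency ht
    omega

end Completion

end Pool.H81.EN
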