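import Mathlib

/-!
# Eisenbud–Neumann diagrams of boundaries of acyclic surfaces: definitions

The dual graph of the boundary, its twigs, its Eisenbud–Neumann diagram; the numerical data of a
minimal SNC-completion of a `ℚ`-acyclic surface of log general type; and two published theorems, the
Bogomolov–Miyaoka–Yau inequality and the minimal model program, as properties of these data.
-/

set_option autoImplicit false

namespace Pool.H81.EN

section Graph

variable {ι : Type}

/-- The valency of the vertex `v` of the graph `Γ`. -/
noncomputable def valency (Γ : SimpleGraph ι) (v : ι) : ℕ := (Γ.neighborSet v).ncard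

/-- The vertex `v` belongs to a twig of `Γ` (a linear chain that ends in a leaf): there is a walk
from `v` to a leaf all of whose vertices (`v` among them) have valency at most `2`. -/
def Twig (Γ : SimpleGraph ι) (v : ι) : Prop :=
  ∃ (l : ι) (p : Γ.Walk v l), valency Γ l = 1 ∧ ∀ w ∈ p.support, valency Γ w ≤ 2

/-- The vertices of the Eisenbud–Neumann diagram of `Γ`: the branching points and the leaves (the
ends of the arrowheads). -/
def DVertex (Γ : SimpleGraph ι) : Type := {v : ι // valency Γ v ≠ 2}

/-- Adjacency in the Eisenbud–Neumann diagram of `Γ`: there is a path in `Γ` between the two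
different vertices with all inner vertices of valency `2`. -/
def DAdj (Γ : SimpleGraph ι) (u v : DVertex Γ) : Prop :=
  u ≠ v ∧ ∃ p : Γ.Walk u.1 v.1, p.IsPath ∧ ∀ w ∈ p.support, w = u.1 ∨ w = v.1 ∨ valency Γ w = 2

/-- A diagram with `m` vertices: a graph on `{0, ..., m - 1}` and the set of its arrowheads. -/
abbrev Diagram : Type := Σ m : ℕ, SimpleGraph (Fin m) × Set (Fin m)

/-- `d` is the Eisenbud–Neumann diagram of `Γ`, up to isomorphism: there is a bijection from the
vertices of the Eisenbud–Neumann diagram to those of `d` that respects adjacency and maps the leaves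
of `Γ` to the arrowheads of `d`. -/
def IsDiagramOf (Γ : SimpleGraph ι) (d : Diagram) : Prop :=
  ∃ e : DVertex Γ ≃ Fin d.1, (∀ u v, DAdj Γ u v ↔ d.2.1.Adj (e u) (e v)) ∧
    ∀ v, valency Γ v.1 = 1 ↔ e v ∈ d.2.2

end Graph

/-- The numerical data of a smooth projective surface `V`. -/
structure Surface where
  /-- The `ℝ`-divisors on `V` modulo numerical equivalence. -/
  N : Type
  /-- They are an abelian group. -/
  [grp : AddCommGroup N]
  /-- They are a real vector space. -/
  [mod : Module ℝ N]
  /-- The intersection number. -/
  dot : N →ₗ[ℝ] N →ₗ[ℝ] ℝ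
  /-- It is symmetric. -/
  dot_comm : ∀ x y, dot x y = dot y x
  /-- The canonical class. -/
  K : N
  /-- The irreducible curves on `V`. -/
  Curve : Type
  /-- Their classes. -/
  cls : Curve → N
  /-- The intersection numbers of curves are integers. -/
  integral : ∀ C C', ∃ m : ℤ, dot (cls C) (cls C') = m
  /-- Different irreducible curves have intersection number at least `0`. -/
  nonneg : ∀ C C', C ≠ C' → 0 ≤ dot (cls C) (cls C')
  /-- The intersection numbers of the curves with the canonical class are integers. -/
  integral_K : ∀ C, ∃ m : ℤ, dot K (cls C) = m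
  /-- The arithmetic genus of a curve is at least `0`. -/
  genus : ∀ C, -2 ≤ dot K (cls C) + dot (cls C) (cls C)

attribute [instance] Surface.grp Surface.mod

namespace Surface

/-- The nef classes. -/
def Nef (S : Surface) (x : S.N) : Prop := ∀ C, 0 ≤ S.dot x (S.cls C)

/-- The pseudo-effective classes (the dual cone of the nef cone). -/
def Psef (S : Surface) (x : S.N) : Prop := ∀ y, S.Nef y → 0 ≤ S.dot x y

end Surface

/-- The numerical data of a minimal SNC-completion `(V, D)` of a `ℚ`-acyclic surface `V \ D` of log
general type. -/
structure Completion extends Surface where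
  /-- The index set of the components of `D`. -/
  ι : Type
  /-- There are finitely many components. -/
  [fin : Fintype ι]
  /-- The components of `D`. -/
  comp : ι → Curve
  /-- They are different. -/
  comp_inj : Function.Injective comp
  /-- The dual graph of `D`. -/
  Γ : SimpleGraph ι
  /-- It is a tree. -/
  tree : Γ.IsTree
  /-- Adjacent components meet in one point, transversally. -/
  meet : ∀ i j, Γ.Adj i j → dot (cls (comp i)) (cls (comp j)) = 1
  /-- Other components are disjoint. -/
  disjoint : ∀ i j, i ≠ j → ¬ Γ.Adj i j → dot (cls (comp i)) (cls (comp j)) = 0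
  /-- The components are smooth rational curves (adjunction formula). -/
  adjunction : ∀ i, dot K (cls (comp i)) + dot (cls (comp i)) (cls (comp i)) = -2
  /-- Minimality: no component is a `(-1)`-curve that meets at most two other ones. -/
  minimal : ∀ i, valency Γ i ≤ 2 → dot (cls (comp i)) (cls (comp i)) ≠ -1
  /-- Acyclicity: the components span the space of the `ℝ`-divisors. -/
  span : ∀ x : N, ∃ y : ι → ℝ, x = ∑ i, y i • cls (comp i)
  /-- An ample class of `V`. -/
  A : N
  /-- It is positive on the pseudo-effective classes different from `0`. -/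
  ample : ∀ x, toSurface.Psef x → x ≠ 0 → 0 < dot A x
  /-- It is positive on the nef classes different from `0`. -/
  ample_nef : ∀ x, toSurface.Nef x → x ≠ 0 → 0 < dot A x
  /-- It is itself pseudo-effective. -/
  ample_psef : toSurface.Psef A
  /-- Log general type: `K + D` is big, that is, the sum of an ample and a pseudo-effective
  class. -/
  big : ∃ ε : ℝ, 0 < ε ∧ toSurface.Psef (K + ∑ i, cls (comp i) - ε • A)

attribute [instance] Completion.fin

namespace Completion

/-- The class of `D`. -/
def D (S : Completion) : S.N := ∑ i, S.cls (S.comp i)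

/-- The class `K + D - ∑ n i • D_i`. -/
def pos (S : Completion) (n : S.ι → ℝ) : S.N := S.K + S.D - ∑ i, n i • S.cls (S.comp i)

/-- `∑ n i • D_i` is the bark of `D`: it is supported on the twigs, and `K + D - ∑ n i • D_i` is
orthogonal to their components. -/
def IsBark (S : Completion) (n : S.ι → ℝ) : Prop :=
  (∀ i, ¬ Twig S.Γ i → n i = 0) ∧ ∀ j, Twig S.Γ j → S.dot (S.pos n) (S.cls (S.comp j)) = 0

/-- The number of leaves of the dual graph: the arrowheads of its Eisenbud–Neumann diagram. -/
noncomputable def leaves (S : Completion) : ℕ := {i | valency S.Γ i = 1}.ncard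

/-- The number of branching points. -/
noncomputable def branching (S : Completion) : ℕ := {i | 3 ≤ valency S.Γ i}.ncard

/-- `C` is the closure of an affine line in `V \ D`: a smooth rational curve, not a component of
`D`, that meets `D` in one point, transversally. -/
def IsLine (S : Completion) (C : S.Curve) : Prop :=
  (∀ i, S.comp i ≠ C) ∧ S.dot S.K (S.cls C) + S.dot (S.cls C) (S.cls C) = -2 ∧
    S.dot S.D (S.cls C) = 1

/-- The Bogomolov–Miyaoka–Yau inequality (Miyaoka; Kobayashi, Nakamura, Sakai) for the surfaces
`V \ D`, of Euler characteristic `1`, and `V \ (D ∪ C)`, where `C \ D` is an affine line, of Euler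
characteristic `0`: if `P` is nef and `K + B - P` is pseudo-effective, where `B = D` or `B = D + C`,
then `P² ≤ 3 e(V \ B)`. (It is usually stated for the greatest such `P`, the positive part of the
Zariski decomposition of `K + B`.) -/
def BMY (S : Completion) : Prop :=
  (∀ P, S.Nef P → S.Psef (S.K + S.D - P) → S.dot P P ≤ 3) ∧
    ∀ C, S.IsLine C → ∀ P, S.Nef P → S.Psef (S.K + S.D + S.cls C - P) → S.dot P P ≤ 0

/-- `H` is the pull-back of `-K'`, where `V'` is a rational surface of Picard number one with
discrepancies at least `-2/3`: let `Y` be its minimal resolution, `- (K_Y + B)` the pull-back of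
`-K'` to `Y`, so that `B` is effective with coefficients at most `2/3`. Either `Y` is the plane and
`H² = 9`; or there is a morphism `Y → F_n` to a Hirzebruch surface. In this case `F` and `Z` are the
pull-backs to `V` of a fibre and of a section with self-intersection number `-n`, and `β` is the
coefficient in `B` of the proper transform of this section. Then `H · F ≤ 2 - β` and
`H · Z ≤ 2 - n + β n`, and the pull-back to `V` of the push-forward of `H` to `F_n`, minus `H`, is
effective. -/
def FromPlane (S : Completion) (H : S.N) : Prop :=
  S.dot H H = 9 ∨ ∃ (n : ℕ) (F Z : S.N) (β : ℝ), S.Psef F ∧ S.Psef Z ∧ 0 ≤ β ∧ β ≤ 2 / 3 ∧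
    S.dot H F ≤ 2 - β ∧ S.dot H Z ≤ 2 - n + β * n ∧
    S.Psef (S.dot H F • Z + (S.dot H Z + n * S.dot H F) • F - H)

/-- The result `φ : V → V'` of the minimal model program for the klt pair `(V, (2/3) D)`: either
`K + (2/3) D` is pseudo-effective; or `V'` is fibred over a curve and `K + (2/3) D` is negative on
the general fibre, a smooth rational curve `F` with `F² = 0`; or `V'` is a del Pezzo surface of
Picard number one on which `-(K' + (2/3) D')` is ample. In the last case `V'` is rational, and its
discrepancies are at least `-2/3`. Let `H = φ^*(-K')` and `D' = t (-K')` numerically. Then `H` is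
nef, `H² > 0`, `K · H = - H²`, `D · H = t H²`, `(2/3) t < 1`, and the class
`K + (2/3) D + (1 - (2/3) t) H = K + (2/3) D - φ^*(K' + (2/3) D')` is effective. -/
def MMP (S : Completion) : Prop :=
  S.Psef (S.K + (2 / 3 : ℝ) • S.D) ∨
  (∃ F, S.dot (S.cls F) (S.cls F) = 0 ∧ S.dot S.K (S.cls F) = -2 ∧
    S.dot (S.K + (2 / 3 : ℝ) • S.D) (S.cls F) < 0) ∨
  ∃ (H : S.N) (t : ℝ), S.Nef H ∧ 0 < S.dot H H ∧ S.FromPlane H ∧
    S.dot S.K H = - S.dot H H ∧ S.dot S.D H = t * S.dot H H ∧ 2 / 3 * t < 1 ∧
    S.Psef (S.K + (2 / 3 : ℝ) • S.D + (1 - 2 / 3 * t) • H)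

end Completion

end Pool.H81.EN
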