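import Pool.Agent.H81.EN.Num

/-!
# The finite list of the diagrams
-/

set_option autoImplicit false

namespace Pool.H81.EN

open Finset

/-- The diagrams with at most `46` vertices. -/
def list46 : Set Diagram := {d | d.1 ≤ 46}

theorem list46_finite : list46.Finite := by
  have h : list46 ⊆ ⋃ m ∈ (Finset.range 47), Set.range (Sigma.mk (β := fun m : ℕ =>
      SimpleGraph (Fin m) × Set (Fin m)) m) := by
    rintro ⟨m, x⟩ hd
    have hm : m ≤ 46 := hd
    rw [Set.mem_iUnion₂]
    exact ⟨m, Finset.mem_range.2 (by omega), x, rfl⟩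
  refine Set.Finite.subset (Set.Finite.biUnion (Finset.finite_toSet _) fun m _ => ?_) h
  exact Set.finite_range _

variable {ι : Type}

/-- Every graph whose diagram has exactly `m` vertices has a diagram in the list. -/
theorem exists_diagram (Γ : SimpleGraph ι) {m : ℕ} (e : DVertex Γ ≃ Fin m) :
    ∃ d : Diagram, d.1 = m ∧ IsDiagramOf Γ d := by
  have hsymm : ∀ u v, DAdj Γ u v → DAdj Γ v u := by
    rintro u v ⟨h1, p, h2, h3⟩
    refine ⟨h1.symm, p.reverse, h2.reverse, fun w hw => ?_⟩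
    rw [SimpleGraph.Walk.support_reverse, List.mem_reverse] at hw
    rcases h3 w hw with h | h | h
    · exact Or.inr (Or.inl h)
    · exact Or.inl h
    · exact Or.inr (Or.inr h)
  let G : SimpleGraph (Fin m) :=
    { Adj := fun i j => DAdj Γ (e.symm i) (e.symm j)
      symm := ⟨fun i j h => hsymm _ _ h⟩
      loopless := ⟨fun i h => h.1 rfl⟩ }
  refine ⟨⟨m, G, {i | valency Γ (e.symm i).1 = 1}⟩, rfl, e, fun u v => ?_, fun v => ?_⟩
  · change DAdj Γ u v ↔ DAdj Γ (e.symm (e u)) (e.symm (e v))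
    rw [e.symm_apply_apply, e.symm_apply_apply]
  · change valency Γ v.1 = 1 ↔ valency Γ (e.symm (e v)).1 = 1
    rw [e.symm_apply_apply]

/-- The number of the vertices of the diagram of a tree. -/
theorem card_dvertex [Fintype ι] {Γ : SimpleGraph ι} (hT : Γ.IsTree)
    (h1 : {i | valency Γ i = 1}.ncard ≤ 24) (h2 : {i | 3 ≤ valency Γ i}.ncard ≤ 22) :
    {i | valency Γ i ≠ 2}.ncard ≤ 46 := by
  classical
  rcases branching_le hT with h | h
  · have h3 : {i | valency Γ i ≠ 2}.ncard ≤ (Set.univ : Set ι).ncard :=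
      Set.ncard_le_ncard (Set.subset_univ _) (Set.toFinite _)
    rw [Set.ncard_univ, Nat.card_eq_fintype_card, h.2.2] at h3
    omega
  · have h3 : {i | valency Γ i ≠ 2} ⊆ {i | valency Γ i = 1} ∪ {i | 3 ≤ valency Γ i} := by
      intro v hv
      have h4 := h.2 v
      simp only [Set.mem_ofPred_eq, Set.mem_union] at hv ⊢
      omega
    have h4 := Set.ncard_le_ncard h3 (Set.toFinite _)
    have h5 := Set.ncard_union_le {i | valency Γ i = 1} {i | 3 ≤ valency Γ i}
    omega

theorem mem_list [Fintype ι] {Γ : SimpleGraph ι} (hT : Γ.IsTree)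
    (h1 : {i | valency Γ i = 1}.ncard ≤ 24) (h2 : {i | 3 ≤ valency Γ i}.ncard ≤ 22) :
    ∃ d ∈ list46, IsDiagramOf Γ d := by
  classical
  have h3 := card_dvertex hT h1 h2
  have : Finite (DVertex Γ) := Subtype.finite
  obtain ⟨d, hd, hd'⟩ := exists_diagram Γ (Finite.equivFin (DVertex Γ))
  refine ⟨d, ?_, hd'⟩
  change d.1 ≤ 46
  rw [hd]
  exact h3

end Pool.H81.EN
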