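import Pool.Agent.H81.EN.Diag

/-!
# An example

The complement of the plane quartic with three cusps is a `ℚ`-acyclic surface of log general type.
Its minimal SNC-completion has ten components: the proper transform of the quartic, and three for
each cusp. We check that its numerical data satisfy all conditions.
-/

set_option autoImplicit false

namespace Pool.H81.EN.Ex

open Finset Pool.H81.EN

/-- The tree: the parents of the vertices. -/
def par : Fin 10 → Fin 10 := ![0, 0, 1, 1, 0, 4, 4, 0, 7, 7]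

/-- The dual graph. -/
def G : SimpleGraph (Fin 10) where
  Adj i j := i ≠ j ∧ (par i = j ∨ par j = i)
  symm := ⟨fun _ _ h => ⟨h.1.symm, h.2.symm⟩⟩
  loopless := ⟨fun _ h => h.1 rfl⟩

instance : DecidableRel G.Adj := fun i j =>
  inferInstanceAs (Decidable (i ≠ j ∧ (par i = j ∨ par j = i)))

/-- The self-intersection numbers. -/
def sq : Fin 10 → ℤ := ![-2, -1, -2, -3, -1, -2, -3, -1, -2, -3]

/-- The intersection matrix. -/
def M (i j : Fin 10) : ℤ := if i = j then sq i else if par i = j ∨ par j = i then 1 else 0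

theorem M_comm (i j : Fin 10) : M i j = M j i := by
  revert i j
  decide

/-- The intersection form. -/
noncomputable def form : (Fin 10 → ℝ) →ₗ[ℝ] (Fin 10 → ℝ) →ₗ[ℝ] ℝ :=
  LinearMap.mk₂ ℝ (fun x y => ∑ i, ∑ j, (M i j : ℝ) * (x i * y j))
    (fun x x' y => by
      rw [← Finset.sum_add_distrib]
      refine Finset.sum_congr rfl fun i _ => ?_
      rw [← Finset.sum_add_distrib]
      refine Finset.sum_congr rfl fun j _ => ?_
      rw [Pi.add_apply]
      ring)
    (fun c x y => by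
      rw [smul_eq_mul, Finset.mul_sum]
      refine Finset.sum_congr rfl fun i _ => ?_
      rw [Finset.mul_sum]
      refine Finset.sum_congr rfl fun j _ => ?_
      rw [Pi.smul_apply, smul_eq_mul]
      ring)
    (fun x y y' => by
      rw [← Finset.sum_add_distrib]
      refine Finset.sum_congr rfl fun i _ => ?_
      rw [← Finset.sum_add_distrib]
      refine Finset.sum_congr rfl fun j _ => ?_
      rw [Pi.add_apply]
      ring)
    (fun c x y => by
      rw [smul_eq_mul, Finset.mul_sum]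
      refine Finset.sum_congr rfl fun i _ => ?_
      rw [Finset.mul_sum]
      refine Finset.sum_congr rfl fun j _ => ?_
      rw [Pi.smul_apply, smul_eq_mul]
      ring)

theorem form_apply (x y : Fin 10 → ℝ) : form x y = ∑ i, ∑ j, (M i j : ℝ) * (x i * y j) := rfl

theorem form_comm (x y : Fin 10 → ℝ) : form x y = form y x := by
  rw [form_apply, form_apply, Finset.sum_comm]
  refine Finset.sum_congr rfl fun i _ => Finset.sum_congr rfl fun j _ => ?_
  rw [M_comm]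
  ring

/-- The classes of the components. -/
noncomputable def e (i : Fin 10) : Fin 10 → ℝ := Pi.single i 1

theorem form_e (x : Fin 10 → ℝ) (j : Fin 10) : form x (e j) = ∑ i, (M i j : ℝ) * x i := by
  rw [form_apply]
  refine Finset.sum_congr rfl fun i _ => ?_
  rw [Finset.sum_eq_single j]
  · simp [e]
  · intro k _ hk
    simp [e, hk]
  · intro h
    exact absurd (mem_univ j) h

theorem form_e_e (i j : Fin 10) : form (e i) (e j) = M i j := by
  rw [form_e, Finset.sum_eq_single i]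
  · simp [e]
  · intro k _ hk
    simp [e, hk]
  · intro h
    exact absurd (mem_univ i) h

/-- The canonical class. -/
noncomputable def K : Fin 10 → ℝ := ![-3/4, -1/2, -1/4, -1/2, -1/2, -1/4, -1/2, -1/2, -1/4, -1/2]

theorem vals (x : Fin 10 → ℝ) :
    form x (e 0) = -2 * x 0 + x 1 + x 4 + x 7 ∧
    form x (e 1) = -x 1 + x 0 + x 2 + x 3 ∧
    form x (e 2) = -2 * x 2 + x 1 ∧
    form x (e 3) = -3 * x 3 + x 1 ∧
    form x (e 4) = -x 4 + x 0 + x 5 + x 6 ∧
    form x (e 5) = -2 * x 5 + x 4 ∧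
    form x (e 6) = -3 * x 6 + x 4 ∧
    form x (e 7) = -x 7 + x 0 + x 8 + x 9 ∧
    form x (e 8) = -2 * x 8 + x 7 ∧
    form x (e 9) = -3 * x 9 + x 7 := by
  have hM : ∀ j, form x (e j) = (M 0 j : ℝ) * x 0 + (M 1 j : ℝ) * x 1 + (M 2 j : ℝ) * x 2 +
      (M 3 j : ℝ) * x 3 + (M 4 j : ℝ) * x 4 + (M 5 j : ℝ) * x 5 + (M 6 j : ℝ) * x 6 +
      (M 7 j : ℝ) * x 7 + (M 8 j : ℝ) * x 8 + (M 9 j : ℝ) * x 9 := by
    intro j
    rw [form_e]
    simp only [Fin.sum_univ_succ, Fin.sum_univ_zero]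
    simp only [Fin.succ_zero_eq_one, Fin.succ_one_eq_two]
    ring_nf
    rfl
  refine ⟨?_, ?_, ?_, ?_, ?_, ?_, ?_, ?_, ?_, ?_⟩
  · obtain ⟨h0, h1, h2, h3, h4, h5, h6, h7, h8, h9⟩ : M 0 0 = -2 ∧ M 1 0 = 1 ∧
        M 2 0 = 0 ∧ M 3 0 = 0 ∧ M 4 0 = 1 ∧ M 5 0 = 0 ∧ M 6 0 = 0 ∧
        M 7 0 = 1 ∧ M 8 0 = 0 ∧ M 9 0 = 0 := by decide
    rw [hM, h0, h1, h2, h3, h4, h5, h6, h7, h8, h9]
    push_cast
    ring
  · obtain ⟨h0, h1, h2, h3, h4, h5, h6, h7, h8, h9⟩ : M 0 1 = 1 ∧ M 1 1 = -1 ∧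
        M 2 1 = 1 ∧ M 3 1 = 1 ∧ M 4 1 = 0 ∧ M 5 1 = 0 ∧ M 6 1 = 0 ∧
        M 7 1 = 0 ∧ M 8 1 = 0 ∧ M 9 1 = 0 := by decide
    rw [hM, h0, h1, h2, h3, h4, h5, h6, h7, h8, h9]
    push_cast
    ring
  · obtain ⟨h0, h1, h2, h3, h4, h5, h6, h7, h8, h9⟩ : M 0 2 = 0 ∧ M 1 2 = 1 ∧
        M 2 2 = -2 ∧ M 3 2 = 0 ∧ M 4 2 = 0 ∧ M 5 2 = 0 ∧ M 6 2 = 0 ∧
        M 7 2 = 0 ∧ M 8 2 = 0 ∧ M 9 2 = 0 := by decide
    rw [hM, h0, h1, h2, h3, h4, h5, h6, h7, h8, h9]
    push_cast
    ring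
  · obtain ⟨h0, h1, h2, h3, h4, h5, h6, h7, h8, h9⟩ : M 0 3 = 0 ∧ M 1 3 = 1 ∧
        M 2 3 = 0 ∧ M 3 3 = -3 ∧ M 4 3 = 0 ∧ M 5 3 = 0 ∧ M 6 3 = 0 ∧
        M 7 3 = 0 ∧ M 8 3 = 0 ∧ M 9 3 = 0 := by decide
    rw [hM, h0, h1, h2, h3, h4, h5, h6, h7, h8, h9]
    push_cast
    ring
  · obtain ⟨h0, h1, h2, h3, h4, h5, h6, h7, h8, h9⟩ : M 0 4 = 1 ∧ M 1 4 = 0 ∧
        M 2 4 = 0 ∧ M 3 4 = 0 ∧ M 4 4 = -1 ∧ M 5 4 = 1 ∧ M 6 4 = 1 ∧
        M 7 4 = 0 ∧ M 8 4 = 0 ∧ M 9 4 = 0 := by decide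
    rw [hM, h0, h1, h2, h3, h4, h5, h6, h7, h8, h9]
    push_cast
    ring
  · obtain ⟨h0, h1, h2, h3, h4, h5, h6, h7, h8, h9⟩ : M 0 5 = 0 ∧ M 1 5 = 0 ∧
        M 2 5 = 0 ∧ M 3 5 = 0 ∧ M 4 5 = 1 ∧ M 5 5 = -2 ∧ M 6 5 = 0 ∧
        M 7 5 = 0 ∧ M 8 5 = 0 ∧ M 9 5 = 0 := by decide
    rw [hM, h0, h1, h2, h3, h4, h5, h6, h7, h8, h9]
    push_cast
    ring
  · obtain ⟨h0, h1, h2, h3, h4, h5, h6, h7, h8, h9⟩ : M 0 6 = 0 ∧ M 1 6 = 0 ∧
        M 2 6 = 0 ∧ M 3 6 = 0 ∧ M 4 6 = 1 ∧ M 5 6 = 0 ∧ M 6 6 = -3 ∧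
        M 7 6 = 0 ∧ M 8 6 = 0 ∧ M 9 6 = 0 := by decide
    rw [hM, h0, h1, h2, h3, h4, h5, h6, h7, h8, h9]
    push_cast
    ring
  · obtain ⟨h0, h1, h2, h3, h4, h5, h6, h7, h8, h9⟩ : M 0 7 = 1 ∧ M 1 7 = 0 ∧
        M 2 7 = 0 ∧ M 3 7 = 0 ∧ M 4 7 = 0 ∧ M 5 7 = 0 ∧ M 6 7 = 0 ∧
        M 7 7 = -1 ∧ M 8 7 = 1 ∧ M 9 7 = 1 := by decide
    rw [hM, h0, h1, h2, h3, h4, h5, h6, h7, h8, h9]
    push_cast
    ring
  · obtain ⟨h0, h1, h2, h3, h4, h5, h6, h7, h8, h9⟩ : M 0 8 = 0 ∧ M 1 8 = 0 ∧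
        M 2 8 = 0 ∧ M 3 8 = 0 ∧ M 4 8 = 0 ∧ M 5 8 = 0 ∧ M 6 8 = 0 ∧
        M 7 8 = 1 ∧ M 8 8 = -2 ∧ M 9 8 = 0 := by decide
    rw [hM, h0, h1, h2, h3, h4, h5, h6, h7, h8, h9]
    push_cast
    ring
  · obtain ⟨h0, h1, h2, h3, h4, h5, h6, h7, h8, h9⟩ : M 0 9 = 0 ∧ M 1 9 = 0 ∧
        M 2 9 = 0 ∧ M 3 9 = 0 ∧ M 4 9 = 0 ∧ M 5 9 = 0 ∧ M 6 9 = 0 ∧
        M 7 9 = 1 ∧ M 8 9 = 0 ∧ M 9 9 = -3 := by decide
    rw [hM, h0, h1, h2, h3, h4, h5, h6, h7, h8, h9]
    push_cast
    ring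

theorem valency_G (i : Fin 10) : valency G i = (![3, 3, 1, 1, 3, 1, 1, 3, 1, 1] : Fin 10 → ℕ) i := by
  rw [valency_eq]
  revert i
  decide

theorem tree : G.IsTree := by
  rw [SimpleGraph.isTree_iff_connected_and_card]
  refine ⟨?_, ?_⟩
  · have h0 : ∀ i, G.Reachable 0 i := by
      have h1 : ∀ i j, G.Adj i j → G.Reachable 0 i → G.Reachable 0 j :=
        fun i j h hi => hi.trans h.reachable
      have h2 : G.Reachable 0 0 := SimpleGraph.Reachable.refl 0
      have h3 := h1 0 1 (by decide) h2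
      have h4 := h1 0 4 (by decide) h2
      have h5 := h1 0 7 (by decide) h2
      intro i
      fin_cases i
      · exact h2
      · exact h3
      · exact h1 1 2 (by decide) h3
      · exact h1 1 3 (by decide) h3
      · exact h4
      · exact h1 4 5 (by decide) h4
      · exact h1 4 6 (by decide) h4
      · exact h5
      · exact h1 7 8 (by decide) h5
      · exact h1 7 9 (by decide) h5
    exact { preconnected := fun i j => (h0 i).symm.trans (h0 j), nonempty := ⟨0⟩ }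
  · have h1 := G.sum_degrees_eq_twice_card_edges
    have h2 : ∑ v, G.degree v = 18 := by decide
    rw [h2] at h1
    rw [Nat.card_eq_fintype_card, Nat.card_eq_fintype_card, ← SimpleGraph.edgeFinset_card,
      Fintype.card_fin]
    omega

theorem adj_iff (i j : Fin 10) : G.Adj i j ↔ i ≠ j ∧ (par i = j ∨ par j = i) := Iff.rfl

/-- Nondegeneracy. -/
theorem eq_zero (x : Fin 10 → ℝ) (h : ∀ j, form x (e j) = 0) : x = 0 := by
  obtain ⟨h0, h1, h2, h3, h4, h5, h6, h7, h8, h9⟩ := vals x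
  rw [h 0] at h0
  rw [h 1] at h1
  rw [h 2] at h2
  rw [h 3] at h3
  rw [h 4] at h4
  rw [h 5] at h5
  rw [h 6] at h6
  rw [h 7] at h7
  rw [h 8] at h8
  rw [h 9] at h9
  funext i
  rw [Pi.zero_apply]
  fin_cases i <;> simp only [Fin.zero_eta, Fin.mk_one, Fin.reduceFinMk] <;> linarith

theorem sum_e (x : Fin 10 → ℝ) : ∑ i, x i • e i = x := by
  funext j
  rw [Finset.sum_apply, Finset.sum_eq_single j]
  · simp [e]
  · intro k _ hk
    simp [e, hk.symm]
  · intro h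
    exact absurd (mem_univ j) h

theorem form_sum (x y : Fin 10 → ℝ) : form x y = ∑ i, y i * form x (e i) := by
  conv_lhs => rw [← sum_e y]
  rw [map_sum]
  exact Finset.sum_congr rfl fun i _ => by rw [map_smul, smul_eq_mul]

theorem sum_one : ∑ i, e i = fun _ => 1 := by
  have := sum_e fun _ => 1
  simpa using this

theorem K_vals : K 0 = -3/4 ∧ K 1 = -1/2 ∧ K 2 = -1/4 ∧ K 3 = -1/2 ∧ K 4 = -1/2 ∧ K 5 = -1/4 ∧
    K 6 = -1/2 ∧ K 7 = -1/2 ∧ K 8 = -1/4 ∧ K 9 = -1/2 :=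
  ⟨rfl, rfl, rfl, rfl, rfl, rfl, rfl, rfl, rfl, rfl⟩

theorem form_K (i : Fin 10) : form K (e i) = -2 - (sq i : ℝ) := by
  obtain ⟨h0, h1, h2, h3, h4, h5, h6, h7, h8, h9⟩ := vals K
  obtain ⟨k0, k1, k2, k3, k4, k5, k6, k7, k8, k9⟩ := K_vals
  rw [k0, k1, k4, k7] at h0
  rw [k0, k1, k2, k3] at h1
  rw [k2, k1] at h2
  rw [k3, k1] at h3
  rw [k0, k4, k5, k6] at h4
  rw [k5, k4] at h5
  rw [k6, k4] at h6
  rw [k0, k7, k8, k9] at h7
  rw [k8, k7] at h8
  rw [k9, k7] at h9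
  fin_cases i
  · refine h0.trans ?_
    norm_num [sq]
  · refine h1.trans ?_
    norm_num [sq]
  · refine h2.trans ?_
    norm_num [sq]
  · refine h3.trans ?_
    norm_num [sq]
  · refine h4.trans ?_
    norm_num [sq]
  · refine h5.trans ?_
    norm_num [sq]
  · refine h6.trans ?_
    norm_num [sq]
  · refine h7.trans ?_
    norm_num [sq]
  · refine h8.trans ?_
    norm_num [sq]
  · refine h9.trans ?_
    norm_num [sq]

/-- An ample divisor with support `D`. -/
def b : Fin 10 → ℝ := ![30, 30, 9, 9, 30, 9, 9, 30, 9, 9]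

theorem b_vals : b 0 = 30 ∧ b 1 = 30 ∧ b 2 = 9 ∧ b 3 = 9 ∧ b 4 = 30 ∧ b 5 = 9 ∧ b 6 = 9 ∧
    b 7 = 30 ∧ b 8 = 9 ∧ b 9 = 9 :=
  ⟨rfl, rfl, rfl, rfl, rfl, rfl, rfl, rfl, rfl, rfl⟩

theorem b_pos (i : Fin 10) : 0 < b i := by
  obtain ⟨b0, b1, b2, b3, b4, b5, b6, b7, b8, b9⟩ := b_vals
  fin_cases i
  · exact lt_of_lt_of_eq (by norm_num) b0.symm
  · exact lt_of_lt_of_eq (by norm_num) b1.symm
  · exact lt_of_lt_of_eq (by norm_num) b2.symm
  · exact lt_of_lt_of_eq (by norm_num) b3.symm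
  · exact lt_of_lt_of_eq (by norm_num) b4.symm
  · exact lt_of_lt_of_eq (by norm_num) b5.symm
  · exact lt_of_lt_of_eq (by norm_num) b6.symm
  · exact lt_of_lt_of_eq (by norm_num) b7.symm
  · exact lt_of_lt_of_eq (by norm_num) b8.symm
  · exact lt_of_lt_of_eq (by norm_num) b9.symm

theorem form_b (j : Fin 10) : 3 ≤ form b (e j) := by
  obtain ⟨h0, h1, h2, h3, h4, h5, h6, h7, h8, h9⟩ := vals b
  obtain ⟨b0, b1, b2, b3, b4, b5, b6, b7, b8, b9⟩ := b_vals
  fin_cases j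
  · refine le_of_le_of_eq ?_ h0.symm
    rw [b0, b1, b4, b7]
    norm_num
  · refine le_of_le_of_eq ?_ h1.symm
    rw [b0, b1, b2, b3]
    norm_num
  · refine le_of_le_of_eq ?_ h2.symm
    rw [b1, b2]
    norm_num
  · refine le_of_le_of_eq ?_ h3.symm
    rw [b1, b3]
    norm_num
  · refine le_of_le_of_eq ?_ h4.symm
    rw [b0, b4, b5, b6]
    norm_num
  · refine le_of_le_of_eq ?_ h5.symm
    rw [b4, b5]
    norm_num
  · refine le_of_le_of_eq ?_ h6.symm
    rw [b4, b6]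
    norm_num
  · refine le_of_le_of_eq ?_ h7.symm
    rw [b0, b7, b8, b9]
    norm_num
  · refine le_of_le_of_eq ?_ h8.symm
    rw [b7, b8]
    norm_num
  · refine le_of_le_of_eq ?_ h9.symm
    rw [b7, b9]
    norm_num

theorem M_bound (i j : Fin 10) : |(M i j : ℝ)| ≤ 3 := by
  have : ∀ i j : Fin 10, |M i j| ≤ 3 := by decide
  exact_mod_cast this i j

/-- The surface of the example, with the components of `D` as its only curves. -/
noncomputable def surface : Surface where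
  N := Fin 10 → ℝ
  dot := form
  dot_comm := form_comm
  K := K
  Curve := Fin 10
  cls := e
  integral C C' := ⟨M C C', form_e_e C C'⟩
  nonneg C C' h := by
    rw [form_e_e]
    have : ∀ C C' : Fin 10, C ≠ C' → 0 ≤ M C C' := by decide
    exact_mod_cast this C C' h
  integral_K C := ⟨-2 - sq C, by rw [form_K]; push_cast; ring⟩
  genus C := by
    rw [form_K, form_e_e, M, if_pos rfl]
    linarith

/-- Positivity of an ample class. -/
theorem ample (x : Fin 10 → ℝ) (hx : surface.Psef x) (h0 : x ≠ 0) : 0 < form b x := by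
  by_contra hneg
  push Not at hneg
  refine h0 (eq_zero x fun j => ?_)
  have h1 : 0 ≤ form x (b + e j) := by
    have key : ∀ k, 0 ≤ form (b + e j) (e k) := by
      intro k
      rw [map_add, LinearMap.add_apply, form_e_e]
      have := form_b k
      have := (abs_le.1 (M_bound j k)).1
      linarith
    exact hx _ key
  have h2 : 0 ≤ form x (b - e j) := by
    have key : ∀ k, 0 ≤ form (b - e j) (e k) := by
      intro k
      rw [map_sub, LinearMap.sub_apply, form_e_e]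
      have := form_b k
      have := (abs_le.1 (M_bound j k)).2
      linarith
    exact hx _ key
  rw [map_add, form_comm x b] at h1
  rw [map_sub, form_comm x b] at h2
  linarith

theorem psef_of_nonneg (x : Fin 10 → ℝ) (hx : ∀ i, 0 ≤ x i) : surface.Psef x := by
  have key : ∀ y : Fin 10 → ℝ, (∀ j, 0 ≤ form y (e j)) → 0 ≤ form x y := by
    intro y hy
    rw [form_comm, form_sum]
    exact Finset.sum_nonneg fun i _ => mul_nonneg (hx i) (hy i)
  exact key

/-- The dual basis. -/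
theorem dual (i : Fin 10) : ∃ y : Fin 10 → ℝ, ∀ j, form y (e j) = if i = j then 1 else 0 := by
  let L : (Fin 10 → ℝ) →ₗ[ℝ] (Fin 10 → ℝ) := LinearMap.pi fun j => form.flip (e j)
  have hL : ∀ y j, L y j = form y (e j) := fun y j => rfl
  have hinj : Function.Injective L := by
    rw [injective_iff_map_eq_zero]
    intro x hx
    refine eq_zero x fun j => ?_
    rw [← hL, hx]
    rfl
  obtain ⟨y, hy⟩ := (LinearMap.injective_iff_surjective.1 hinj) fun j => if i = j then 1 else 0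
  exact ⟨y, fun j => by rw [← hL, hy]⟩

theorem nonneg_of_psef (x : Fin 10 → ℝ) (hx : surface.Psef x) (i : Fin 10) : 0 ≤ x i := by
  obtain ⟨y, hy⟩ := dual i
  have key : ∀ j, 0 ≤ form y (e j) := by
    intro j
    rw [hy]
    split_ifs <;> norm_num
  have h1 : 0 ≤ form x y := hx y key
  rw [form_comm, form_sum, Finset.sum_eq_single i] at h1
  · rw [hy, if_pos rfl, mul_one] at h1
    exact h1
  · intro k _ hk
    rw [hy, if_neg hk.symm, mul_zero]
  · intro h
    exact absurd (mem_univ i) h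

theorem K_add_one (i : Fin 10) : b i / 120 ≤ K i + 1 := by
  obtain ⟨k0, k1, k2, k3, k4, k5, k6, k7, k8, k9⟩ := K_vals
  obtain ⟨b0, b1, b2, b3, b4, b5, b6, b7, b8, b9⟩ := b_vals
  fin_cases i
  · change b 0 / 120 ≤ K 0 + 1
    rw [k0, b0]
    norm_num
  · change b 1 / 120 ≤ K 1 + 1
    rw [k1, b1]
    norm_num
  · change b 2 / 120 ≤ K 2 + 1
    rw [k2, b2]
    norm_num
  · change b 3 / 120 ≤ K 3 + 1
    rw [k3, b3]
    norm_num
  · change b 4 / 120 ≤ K 4 + 1
    rw [k4, b4]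
    norm_num
  · change b 5 / 120 ≤ K 5 + 1
    rw [k5, b5]
    norm_num
  · change b 6 / 120 ≤ K 6 + 1
    rw [k6, b6]
    norm_num
  · change b 7 / 120 ≤ K 7 + 1
    rw [k7, b7]
    norm_num
  · change b 8 / 120 ≤ K 8 + 1
    rw [k8, b8]
    norm_num
  · change b 9 / 120 ≤ K 9 + 1
    rw [k9, b9]
    norm_num

theorem big : surface.Psef (K + ∑ i, e i - (1 / 120 : ℝ) • b) := by
  refine psef_of_nonneg _ fun i => ?_
  rw [sum_one]
  change 0 ≤ K i + 1 - 1 / 120 * b i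
  have := K_add_one i
  linarith

/-- The data of the example. -/
noncomputable def pair : Completion where
  toSurface := surface
  ι := Fin 10
  comp := id
  comp_inj := Function.injective_id
  Γ := G
  tree := tree
  meet i j h := by
    change form (e i) (e j) = 1
    rw [form_e_e, M, if_neg h.1, if_pos h.2]
    norm_num
  disjoint i j h h' := by
    change form (e i) (e j) = 0
    rw [form_e_e, M, if_neg h, if_neg fun h2 => h' ⟨h, h2⟩]
    norm_num
  adjunction i := by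
    change form K (e i) + form (e i) (e i) = -2
    rw [form_K, form_e_e, M, if_pos rfl]
    ring
  minimal i h := by
    change form (e i) (e i) ≠ -1
    rw [form_e_e, M, if_pos rfl]
    rw [valency_G] at h
    have : ∀ i : Fin 10, (![3, 3, 1, 1, 3, 1, 1, 3, 1, 1] : Fin 10 → ℕ) i ≤ 2 → sq i ≠ -1 := by
      decide
    have h1 := this i h
    intro h2
    exact h1 (by exact_mod_cast h2)
  span x := ⟨x, (sum_e x).symm⟩
  A := b
  ample := ample
  ample_nef x hx h0 := by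
    have key : ∀ x : Fin 10 → ℝ, (∀ j, 0 ≤ form x (e j)) → x ≠ 0 → 0 < form b x := by
      intro x hx h0
      rw [form_comm, form_sum]
      by_contra hneg
      push Not at hneg
      have h3 : ∀ i ∈ (univ : Finset (Fin 10)), 0 ≤ b i * form x (e i) := fun i _ =>
        mul_nonneg (b_pos i).le (hx i)
      have h4 := (Finset.sum_eq_zero_iff_of_nonneg h3).1 (le_antisymm hneg (Finset.sum_nonneg h3))
      refine h0 (eq_zero x fun j => ?_)
      exact (mul_eq_zero.1 (h4 j (mem_univ j))).resolve_left (b_pos j).ne'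
    exact key x hx h0
  ample_psef := psef_of_nonneg b fun i => (b_pos i).le
  big := ⟨1 / 120, by norm_num, big⟩

theorem pair_D : pair.D = fun _ => (1 : ℝ) := sum_one

theorem nef_iff (x : Fin 10 → ℝ) : pair.Nef x ↔ ∀ j, 0 ≤ form x (e j) := Iff.rfl

theorem bmy : pair.BMY := by
  have key : ∀ P : Fin 10 → ℝ, (∀ j, 0 ≤ form P (e j)) →
      surface.Psef (K + ∑ i, e i - P) → form P P ≤ 3 := by
    intro P hP hK
    rw [sum_one] at hK
    have h1 : ∀ i, P i ≤ K i + 1 := by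
      intro i
      have := nonneg_of_psef _ hK i
      change 0 ≤ K i + 1 - P i at this
      linarith
    have h2 : form P P ≤ ∑ i, (K i + 1) * form P (e i) := by
      rw [form_sum]
      exact Finset.sum_le_sum fun i _ => mul_le_mul_of_nonneg_right (h1 i) (hP i)
    have h3 : ∑ i, (K i + 1) * form P (e i) = form P (K + fun _ => 1) := by
      rw [form_sum]
      rfl
    have h4 : form P (K + fun _ => 1) = P 0 + (P 1 - P 2 - P 3) + (P 4 - P 5 - P 6) +
        (P 7 - P 8 - P 9) := by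
      rw [form_comm]
      have h5 : ∀ i, form (K + fun _ => 1) (e i) =
          (![1, 1, -1, -1, 1, -1, -1, 1, -1, -1] : Fin 10 → ℝ) i := by
        obtain ⟨h0, h1, h2, h3, h4, h5, h6, h7, h8, h9⟩ := vals (K + fun _ => 1)
        obtain ⟨k0, k1, k2, k3, k4, k5, k6, k7, k8, k9⟩ := K_vals
        simp only [Pi.add_apply] at h0 h1 h2 h3 h4 h5 h6 h7 h8 h9
        rw [k0, k1, k4, k7] at h0
        rw [k0, k1, k2, k3] at h1
        rw [k2, k1] at h2
        rw [k3, k1] at h3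
        rw [k0, k4, k5, k6] at h4
        rw [k5, k4] at h5
        rw [k6, k4] at h6
        rw [k0, k7, k8, k9] at h7
        rw [k8, k7] at h8
        rw [k9, k7] at h9
        intro i
        fin_cases i
        · refine h0.trans ?_
          change _ = (1 : ℝ)
          norm_num
        · refine h1.trans ?_
          change _ = (1 : ℝ)
          norm_num
        · refine h2.trans ?_
          change _ = (-1 : ℝ)
          norm_num
        · refine h3.trans ?_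
          change _ = (-1 : ℝ)
          norm_num
        · refine h4.trans ?_
          change _ = (1 : ℝ)
          norm_num
        · refine h5.trans ?_
          change _ = (-1 : ℝ)
          norm_num
        · refine h6.trans ?_
          change _ = (-1 : ℝ)
          norm_num
        · refine h7.trans ?_
          change _ = (1 : ℝ)
          norm_num
        · refine h8.trans ?_
          change _ = (-1 : ℝ)
          norm_num
        · refine h9.trans ?_
          change _ = (-1 : ℝ)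
          norm_num
      rw [form_sum, Finset.sum_congr rfl fun i _ => by rw [h5 i]]
      simp [Fin.sum_univ_succ]
      ring_nf
    obtain ⟨v0, v1, v2, v3, v4, v5, v6, v7, v8, v9⟩ := vals P
    have p1 := hP 1
    have p4 := hP 4
    have p7 := hP 7
    rw [v1] at p1
    rw [v4] at p4
    rw [v7] at p7
    have q0 := h1 0
    rw [K_vals.1] at q0
    linarith
  exact ⟨key, fun C hC => absurd rfl (hC.1 C)⟩

/-- The pull-back of `- K` of the plane. -/
noncomputable def H : Fin 10 → ℝ := ![3/4, 9/2, 9/4, 3/2, 9/2, 9/4, 3/2, 9/2, 9/4, 3/2]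

theorem H_vals : H 0 = 3/4 ∧ H 1 = 9/2 ∧ H 2 = 9/4 ∧ H 3 = 3/2 ∧ H 4 = 9/2 ∧ H 5 = 9/4 ∧
    H 6 = 3/2 ∧ H 7 = 9/2 ∧ H 8 = 9/4 ∧ H 9 = 3/2 :=
  ⟨rfl, rfl, rfl, rfl, rfl, rfl, rfl, rfl, rfl, rfl⟩

theorem form_H : form H (e 0) = 12 ∧ form H (e 1) = 0 ∧ form H (e 2) = 0 ∧ form H (e 3) = 0 ∧
    form H (e 4) = 0 ∧ form H (e 5) = 0 ∧ form H (e 6) = 0 ∧ form H (e 7) = 0 ∧
    form H (e 8) = 0 ∧ form H (e 9) = 0 := by
  obtain ⟨h0, h1, h2, h3, h4, h5, h6, h7, h8, h9⟩ := vals H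
  obtain ⟨k0, k1, k2, k3, k4, k5, k6, k7, k8, k9⟩ := H_vals
  rw [k0, k1, k4, k7] at h0
  rw [k0, k1, k2, k3] at h1
  rw [k2, k1] at h2
  rw [k3, k1] at h3
  rw [k0, k4, k5, k6] at h4
  rw [k5, k4] at h5
  rw [k6, k4] at h6
  rw [k0, k7, k8, k9] at h7
  rw [k8, k7] at h8
  rw [k9, k7] at h9
  refine ⟨h0.trans ?_, h1.trans ?_, h2.trans ?_, h3.trans ?_, h4.trans ?_, h5.trans ?_,
    h6.trans ?_, h7.trans ?_, h8.trans ?_, h9.trans ?_⟩ <;> norm_num

theorem form_H_eq (y : Fin 10 → ℝ) : form H y = 12 * y 0 := by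
  obtain ⟨h0, h1, h2, h3, h4, h5, h6, h7, h8, h9⟩ := form_H
  rw [form_sum, Finset.sum_eq_single 0, h0, mul_comm]
  · intro i _ hi
    have h : form H (e i) = 0 := by
      revert hi
      fin_cases i
      · exact fun h => absurd rfl h
      · exact fun _ => h1
      · exact fun _ => h2
      · exact fun _ => h3
      · exact fun _ => h4
      · exact fun _ => h5
      · exact fun _ => h6
      · exact fun _ => h7
      · exact fun _ => h8
      · exact fun _ => h9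
    rw [h, mul_zero]
  · intro h
    exact absurd (mem_univ _) h

theorem mmp : pair.MMP := by
  refine Or.inr (Or.inr ⟨H, 4 / 3, ?_, ?_, ?_, ?_, ?_, by norm_num, ?_⟩)
  · rw [nef_iff]
    intro j
    rw [form_H_eq]
    refine mul_nonneg (by norm_num) ?_
    by_cases hj : j = 0
    · simp [e, hj]
    · simp [e, Ne.symm hj]
  · change 0 < form H H
    rw [form_H_eq, H_vals.1]
    norm_num
  · left
    change form H H = 9
    rw [form_H_eq, H_vals.1]
    norm_num
  · change form K H = - form H H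
    rw [form_comm K H, form_H_eq, form_H_eq, H_vals.1, K_vals.1]
    norm_num
  · rw [pair_D]
    change form (fun _ => 1) H = 4 / 3 * form H H
    rw [form_comm _ H, form_H_eq, form_H_eq, H_vals.1]
    norm_num
  · refine psef_of_nonneg _ fun i => ?_
    rw [pair_D]
    change 0 ≤ K i + 2 / 3 * 1 + (1 - 2 / 3 * (4 / 3)) * H i
    obtain ⟨h0, h1, h2, h3, h4, h5, h6, h7, h8, h9⟩ := H_vals
    obtain ⟨k0, k1, k2, k3, k4, k5, k6, k7, k8, k9⟩ := K_vals
    fin_cases i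
    · change 0 ≤ K 0 + 2 / 3 * 1 + (1 - 2 / 3 * (4 / 3)) * H 0
      rw [h0, k0]
      norm_num
    · change 0 ≤ K 1 + 2 / 3 * 1 + (1 - 2 / 3 * (4 / 3)) * H 1
      rw [h1, k1]
      norm_num
    · change 0 ≤ K 2 + 2 / 3 * 1 + (1 - 2 / 3 * (4 / 3)) * H 2
      rw [h2, k2]
      norm_num
    · change 0 ≤ K 3 + 2 / 3 * 1 + (1 - 2 / 3 * (4 / 3)) * H 3
      rw [h3, k3]
      norm_num
    · change 0 ≤ K 4 + 2 / 3 * 1 + (1 - 2 / 3 * (4 / 3)) * H 4
      rw [h4, k4]
      norm_num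
    · change 0 ≤ K 5 + 2 / 3 * 1 + (1 - 2 / 3 * (4 / 3)) * H 5
      rw [h5, k5]
      norm_num
    · change 0 ≤ K 6 + 2 / 3 * 1 + (1 - 2 / 3 * (4 / 3)) * H 6
      rw [h6, k6]
      norm_num
    · change 0 ≤ K 7 + 2 / 3 * 1 + (1 - 2 / 3 * (4 / 3)) * H 7
      rw [h7, k7]
      norm_num
    · change 0 ≤ K 8 + 2 / 3 * 1 + (1 - 2 / 3 * (4 / 3)) * H 8
      rw [h8, k8]
      norm_num
    · change 0 ≤ K 9 + 2 / 3 * 1 + (1 - 2 / 3 * (4 / 3)) * H 9
      rw [h9, k9]
      norm_num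

theorem leaves_eq : pair.leaves = 6 := by
  have h : {i | valency G i = 1}.ncard = 6 := by
    rw [ncard_eq, Finset.filter_congr fun i _ => by rw [valency_G]]
    decide
  exact h

/-- All hypotheses of the theorem hold in the example, which has `6` leaves. -/
theorem consistent : ∃ S : Completion, S.BMY ∧ S.MMP ∧ S.leaves = 6 :=
  ⟨pair, bmy, mmp, leaves_eq⟩

theorem branching_eq : pair.branching = 4 := by
  have h : {i | 3 ≤ valency G i}.ncard = 4 := by
    rw [ncard_eq, Finset.filter_congr fun i _ => by rw [valency_G]]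
    decide
  exact h

end Pool.H81.EN.Ex
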