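import Pool.Agent.H81.EN.Defs

/-!
# Twigs of a tree
-/

set_option autoImplicit false

namespace Pool.H81.EN

open Finset

variable {ι : Type} [Fintype ι] [DecidableEq ι]

omit [DecidableEq ι] in
theorem valency_eq (Γ : SimpleGraph ι) [DecidableRel Γ.Adj] (v : ι) : valency Γ v = Γ.degree v := by
  unfold valency
  rw [Set.ncard_eq_toFinset_card', ← SimpleGraph.card_neighborFinset_eq_degree]
  rfl

/-- The sum over the neighbours. -/
noncomputable def nsum (Γ : SimpleGraph ι) [DecidableRel Γ.Adj] (n : ι → ℝ) (v : ι) : ℝ :=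
  ∑ w ∈ Γ.neighborFinset v, n w

omit [DecidableEq ι] in
theorem nbr_one {Γ : SimpleGraph ι} [DecidableRel Γ.Adj] {v u : ι} (h : valency Γ v = 1)
    (hu : Γ.Adj v u) : Γ.neighborFinset v = {u} := by
  rw [valency_eq, ← SimpleGraph.card_neighborFinset_eq_degree] at h
  obtain ⟨x, hx⟩ := Finset.card_eq_one.1 h
  have : u ∈ Γ.neighborFinset v := by simpa using hu
  rw [hx] at this ⊢
  rw [Finset.mem_singleton.1 this]

theorem nbr_two {Γ : SimpleGraph ι} [DecidableRel Γ.Adj] {v u w : ι} (h : valency Γ v ≤ 2)
    (hu : Γ.Adj v u) (hw : Γ.Adj v w) (huw : u ≠ w) :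
    Γ.neighborFinset v = {u, w} ∧ valency Γ v = 2 := by
  have h1 : ({u, w} : Finset ι) ⊆ Γ.neighborFinset v := by
    intro x hx
    rcases Finset.mem_insert.1 hx with rfl | hx
    · simpa using hu
    · rw [Finset.mem_singleton.1 hx]
      simpa using hw
  have h2 : ({u, w} : Finset ι).card = 2 := Finset.card_pair huw
  have h3 := Finset.card_le_card h1
  rw [valency_eq, ← SimpleGraph.card_neighborFinset_eq_degree] at h ⊢
  refine ⟨(Finset.eq_of_subset_of_card_le h1 (by omega)).symm, by omega⟩

/-- The coefficients along a twig: the last one is at most `1 / 2`. -/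
theorem chain {Γ : SimpleGraph ι} [DecidableRel Γ.Adj] {n a : ι → ℝ} :
    ∀ (v l : ι) (p : Γ.Walk v l), p.IsPath → valency Γ l = 1 →
      (∀ w ∈ p.support, valency Γ w ≤ 2) → (∀ w ∈ p.support, 2 ≤ a w) →
      (∀ w ∈ p.support, nsum Γ n w - a w * n w = (valency Γ w : ℝ) - 2) →
      ∀ u, Γ.Adj v u → u ∉ p.support → 0 ≤ n v → n u ≤ n v → 2 * n v - n u ≤ 1 := by
  intro v l p
  induction p with
  | @nil v =>
    intro _ hl _ ha he u hu _ hv huv
    have h1 := he v (by simp)
    have h2 := ha v (by simp)
    rw [nsum, nbr_one hl hu, Finset.sum_singleton, hl] at h1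
    push_cast at h1
    nlinarith
  | @cons v w l hvw p ih =>
    intro hp hl hd ha he u hu hus hv huv
    have hw : u ≠ w := by
      rintro rfl
      exact hus (by simp)
    have hv2 := hd v (by simp)
    obtain ⟨h1, h2⟩ := nbr_two hv2 hu hvw hw
    have h3 := he v (by simp)
    have h4 := ha v (by simp)
    rw [nsum, h1, Finset.sum_pair hw, h2] at h3
    push_cast at h3
    have hp' := (SimpleGraph.Walk.cons_isPath_iff _ _).1 hp
    have h5 : n v + (n v - n u) ≤ n w := by nlinarith
    have h6 := ih hp'.1 hl (fun x hx => hd x (by simp [hx])) (fun x hx => ha x (by simp [hx]))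
      (fun x hx => he x (by simp [hx])) v hvw.symm hp'.2 (by linarith) (by linarith)
    linarith

/-- The coefficient of the last component of a twig. -/
theorem last_le {Γ : SimpleGraph ι} [DecidableRel Γ.Adj] {n a : ι → ℝ}
    (ha : ∀ w, valency Γ w ≤ 2 → 2 ≤ a w)
    (he : ∀ w, Twig Γ w → nsum Γ n w - a w * n w = (valency Γ w : ℝ) - 2)
    (hn : ∀ w, 0 ≤ n w) {i j : ι} (hij : Γ.Adj i j) (hi : 3 ≤ valency Γ i) (hni : n i = 0)
    (hj : Twig Γ j) : n j ≤ 1 / 2 := by
  obtain ⟨l, p, hl, hp⟩ := hj
  have hsub : ∀ w ∈ p.bypass.support, valency Γ w ≤ 2 := fun w hw =>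
    hp w (SimpleGraph.Walk.support_bypass_subset_support p hw)
  have htw : ∀ w ∈ p.bypass.support, Twig Γ w := by
    intro w hw
    refine ⟨l, p.bypass.dropUntil w hw, hl, fun x hx => ?_⟩
    exact hsub x (SimpleGraph.Walk.support_dropUntil_subset_support _ hw hx)
  have := chain j l p.bypass p.bypass_isPath hl hsub (fun w hw => ha w (hsub w hw))
    (fun w hw => he w (htw w hw)) i hij.symm
    (fun hmem => by have := hsub i hmem; omega) (hn j) (by rw [hni]; exact hn j)
  rw [hni] at this
  linarith

/-- Two branching points with twigs that end in the same leaf. -/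
theorem same_leaf {Γ : SimpleGraph ι} [DecidableRel Γ.Adj] :
    ∀ (v j : ι) (p : Γ.Walk v j), p.IsPath → (∀ w ∈ p.support, valency Γ w ≤ 2) →
      ∀ (U : Set ι), (∀ u ∈ U, valency Γ u ≤ 2) → (∀ u ∈ U, u ∉ p.support) →
      (∀ x y, Γ.Adj v x → Γ.Adj v y → x ∉ U → y ∉ U → x = y) →
      ∀ i, Γ.Adj j i → 3 ≤ valency Γ i →
      ∀ (j' : ι) (p' : Γ.Walk v j'), p'.IsPath → (∀ w ∈ p'.support, valency Γ w ≤ 2) →
      (∀ u ∈ U, u ∉ p'.support) → ∀ i', Γ.Adj j' i' → 3 ≤ valency Γ i' → i = i' ∧ j = j' := by
  intro v j p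
  induction p with
  | nil =>
    intro _ _ U hU _ hnext i hi h3 j' p' hp' hd' hU' i' hi' h3'
    have hiU : i ∉ U := fun h => by have := hU i h; omega
    cases p' with
    | nil =>
      have hiU' : i' ∉ U := fun h => by have := hU i' h; omega
      exact ⟨hnext i i' hi hi' hiU hiU', rfl⟩
    | @cons _ w _ h q =>
      exfalso
      have hw : w ∉ U := fun hw => hU' w hw (by simp)
      have := hnext i w hi h hiU hw
      subst this
      have := hd' i (by simp)
      omega
  | @cons v w j hvw q ih =>
    intro hp hd U hU hUp hnext i hi h3 j' p' hp' hd' hU' i' hi' h3'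
    have hw : w ∉ U := fun hw => hUp w hw (by simp)
    cases p' with
    | nil =>
      exfalso
      have hiU' : i' ∉ U := fun h => by have := hU i' h; omega
      have := hnext i' w hi' hvw hiU' hw
      subst this
      have := hd i' (by simp)
      omega
    | @cons _ w' _ hvw' q' =>
      have hw' : w' ∉ U := fun hw => hU' w' hw (by simp)
      have := hnext w w' hvw hvw' hw hw'
      subst this
      rw [SimpleGraph.Walk.cons_isPath_iff] at hp hp'
      refine ih hp.1 (fun x hx => hd x (by simp [hx])) {v} ?_ ?_ ?_ i hi h3 j' q' hp'.1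
        (fun x hx => hd' x (by simp [hx])) ?_ i' hi' h3'
      · intro u hu
        rw [Set.mem_singleton_iff.1 hu]
        exact hd v (by simp)
      · intro u hu
        rw [Set.mem_singleton_iff.1 hu]
        exact hp.2
      · intro x y hx hy hxv hyv
        by_contra hne
        have h2 := hd w (by simp)
        have h4 := (nbr_two h2 hx hy hne).1
        have h5 : v ∈ Γ.neighborFinset w := by simpa using hvw.symm
        rw [h4] at h5
        rcases Finset.mem_insert.1 h5 with h5 | h5
        · exact hxv (by rw [Set.mem_singleton_iff, h5])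
        · exact hyv (by rw [Set.mem_singleton_iff, Finset.mem_singleton.1 h5])
      · intro u hu
        rw [Set.mem_singleton_iff.1 hu]
        exact hp'.2

/-- The number of the pairs of a branching point and a twig at it is at most the number of the
leaves. -/
theorem card_darts (Γ : SimpleGraph ι) [DecidableRel Γ.Adj] [DecidablePred (Twig Γ)] :
    ((univ : Finset (ι × ι)).filter fun d => 3 ≤ valency Γ d.1 ∧ Γ.Adj d.1 d.2 ∧ Twig Γ d.2).card ≤
      ((univ : Finset ι).filter fun v => valency Γ v = 1).card := by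
  classical
  let f : ι × ι → ι := fun d => if h : Twig Γ d.2 then h.choose else d.2
  refine Finset.card_le_card_of_injOn f ?_ ?_
  · rintro ⟨i, j⟩ hd
    simp only [Finset.coe_filter, Finset.mem_univ, true_and, Set.mem_ofPred_eq] at hd ⊢
    obtain ⟨h1, h2, h3⟩ := hd
    simp only [f, dif_pos h3]
    obtain ⟨p, hl, -⟩ := h3.choose_spec
    exact hl
  · rintro ⟨i, j⟩ hd ⟨i', j'⟩ hd' hf
    simp only [Finset.coe_filter, Finset.mem_univ, true_and, Set.mem_ofPred_eq] at hd hd'
    obtain ⟨h1, h2, h3⟩ := hd
    obtain ⟨h1', h2', h3'⟩ := hd'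
    simp only [f, dif_pos h3, dif_pos h3'] at hf
    obtain ⟨p, hl, hp⟩ := h3.choose_spec
    obtain ⟨p', hl', hp'⟩ := h3'.choose_spec
    generalize h3.choose = l at p hl hp hf
    generalize h3'.choose = l' at p' hl' hp' hf
    subst hf
    have key := same_leaf l j p.reverse.bypass (SimpleGraph.Walk.bypass_isPath _)
      (fun w hw => hp w (by
        have := SimpleGraph.Walk.support_bypass_subset_support _ hw
        simpa using this)) ∅ (by simp) (by simp)
      (fun x y hx hy _ _ => by
        have h4 := nbr_one hl hx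
        have h5 : y ∈ Γ.neighborFinset l := by simpa using hy
        rw [h4, Finset.mem_singleton] at h5
        exact h5.symm) i h2.symm h1 j' p'.reverse.bypass (SimpleGraph.Walk.bypass_isPath _)
      (fun w hw => hp' w (by
        have := SimpleGraph.Walk.support_bypass_subset_support _ hw
        simpa using this)) (by simp) i' h2'.symm h1'
    exact Prod.ext key.1 key.2

end Pool.H81.EN
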