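import Pool.Agent.H81.EN.Diag
import Pool.Agent.H81.EN.Ex

/-!
# Finitely many Eisenbud–Neumann diagrams

Let `(V, D)` be a minimal SNC-completion of a `ℚ`-acyclic surface `X = V \ D` of log general type.

The bark of `D` exists and is unique; let `P = K + D - Bk D`. The dual graph has a branching point
and at most `2 (P · D) + 4` leaves, and `P` is nef if `X` contains no affine line. Assume the
Bogomolov–Miyaoka–Yau inequality and that the minimal model program for `K + (2/3) D` ends in one of
the three known ways. Then the Eisenbud–Neumann diagram has at most `24` arrowheads and at most `22`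
branching points. So there are finitely many diagrams.

The theorem is conditional: the Bogomolov–Miyaoka–Yau inequality and the result of the minimal model
program (with a morphism of the minimal resolution of a rational surface of Picard number one to the
plane or to a Hirzebruch surface) are published theorems which are hypotheses here. That they hold
for the data of an example (the complement of the plane quartic with three cusps) is proved in
`Pool.Agent.H81.EN.Ex`.
-/

set_option autoImplicit false

namespace Pool.H81.EN

theorem main :
    (∀ S : Completion, ∃ n, S.IsBark n ∧ (∀ n', S.IsBark n' → n' = n) ∧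
      ((∀ C, ¬ S.IsLine C) → S.Nef (S.pos n)) ∧
      (S.leaves : ℝ) ≤ 2 * S.dot (S.pos n) S.D + 4 ∧ 1 ≤ S.branching ∧
      (S.BMY → S.MMP → S.leaves ≤ 24 ∧ S.branching ≤ 22)) ∧
    ∃ L : Set Diagram, L.Finite ∧
      ∀ S : Completion, S.BMY → S.MMP → ∃ d ∈ L, IsDiagramOf S.Γ d := by
  refine ⟨fun S => ?_, list46, list46_finite, fun S h2 h3 => ?_⟩
  · obtain ⟨n, hn⟩ := S.bark_exists
    exact ⟨n, hn, fun n' hn' => S.bark_unique hn' hn, S.pos_nef hn, S.leaves_le hn,
      S.one_le_branching, fun h2 h3 => ⟨S.leaves_le_24 h2 h3, S.branching_le_22 h2 h3⟩⟩
  · exact mem_list S.tree (S.leaves_le_24 h2 h3) (S.branching_le_22 h2 h3)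

end Pool.H81.EN
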