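import Pool.Agent.H81.EN.Peel

/-!
# The inequalities

`2 (P · D) + 4` is at least the number of leaves (no cited theorem is used), and `P · D ≤ 31 / 3`
(from the cited theorems). Hence there are at most `24` leaves and at most `22` branching points.
-/

set_option autoImplicit false

namespace Pool.H81.EN

open Finset

section Tree

variable {ι : Type} [Fintype ι]

/-- The sum of `valency - 2` over a tree. -/
theorem sum_valency {Γ : SimpleGraph ι} (h : Γ.IsTree) : ∑ v, ((valency Γ v : ℝ) - 2) = -2 := by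
  classical
  have h1 := Γ.sum_degrees_eq_twice_card_edges
  have h2 := h.card_edgeFinset
  have h3 : (∑ v, (Γ.degree v : ℝ)) = 2 * (Γ.edgeFinset.card : ℝ) := by exact_mod_cast h1
  have h4 : (Γ.edgeFinset.card : ℝ) + 1 = Fintype.card ι := by exact_mod_cast h2
  rw [Finset.sum_sub_distrib, Finset.sum_congr rfl (fun v _ => by rw [valency_eq]), h3,
    Finset.sum_const, Finset.card_univ, nsmul_eq_mul]
  linarith

theorem ncard_eq (p : ι → Prop) [DecidablePred p] : {i | p i}.ncard = (univ.filter p).card := by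
  rw [← Set.ncard_coe_finset]
  congr 1
  ext i
  simp

/-- A tree has a vertex of valency `0` only if it has no other one. -/
theorem zero_or {Γ : SimpleGraph ι} (h : Γ.IsTree) :
    (∀ v, 1 ≤ valency Γ v) ∨ Fintype.card ι = 1 := by
  classical
  by_cases hc : Fintype.card ι = 1
  · exact Or.inr hc
  · left
    intro v
    have h1 : Nontrivial ι := by
      rw [← Fintype.one_lt_card_iff_nontrivial]
      have := @Fintype.card_pos ι _ ⟨v⟩
      omega
    rw [valency_eq]
    exact h.1.preconnected.degree_pos_of_nontrivial v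

/-- The branching points of a tree. -/
theorem branching_le {Γ : SimpleGraph ι} (h : Γ.IsTree) :
    ({i | 3 ≤ valency Γ i}.ncard = 0 ∧ {i | valency Γ i = 1}.ncard = 0 ∧ Fintype.card ι = 1) ∨
      ({i | 3 ≤ valency Γ i}.ncard + 2 ≤ {i | valency Γ i = 1}.ncard ∧ ∀ v, 1 ≤ valency Γ v) := by
  classical
  rcases zero_or h with h0 | h0
  · right
    refine ⟨?_, h0⟩
    rw [ncard_eq, ncard_eq]
    have h1 := sum_valency h
    have h2 : ∀ v, ((if 3 ≤ valency Γ v then 1 else 0 : ℝ) - if valency Γ v = 1 then 1 else 0) ≤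
        (valency Γ v : ℝ) - 2 := by
      intro v
      have := h0 v
      by_cases h3 : 3 ≤ valency Γ v
      · have h4 : (3 : ℝ) ≤ valency Γ v := by exact_mod_cast h3
        rw [if_pos h3, if_neg (by omega)]
        linarith
      · by_cases h4 : valency Γ v = 1
        · rw [if_neg h3, if_pos h4, h4]
          norm_num
        · have h5 : valency Γ v = 2 := by omega
          rw [if_neg h3, if_neg h4, h5]
          norm_num
    have h3 := Finset.sum_le_sum fun v (_ : v ∈ (univ : Finset ι)) => h2 v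
    rw [h1, Finset.sum_sub_distrib, Finset.sum_boole, Finset.sum_boole] at h3
    have h4 : (((univ.filter fun v => 3 ≤ valency Γ v).card + 2 : ℕ) : ℝ) ≤
        ((univ.filter fun v => valency Γ v = 1).card : ℕ) := by
      push_cast
      linarith
    exact_mod_cast h4
  · left
    have hv : ∀ v, valency Γ v = 0 := by
      intro v
      rw [valency_eq]
      have := Γ.degree_lt_card_verts v
      omega
    refine ⟨?_, ?_, h0⟩
    · rw [ncard_eq]
      simp [hv]
    · rw [ncard_eq]
      simp [hv]

end Tree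

namespace Completion

variable (S : Completion)

/-- Only the components off the twigs contribute to `P · D`. -/
theorem pos_D [DecidableRel S.Γ.Adj] [DecidablePred (Twig S.Γ)] {n : S.ι → ℝ} (hn : S.IsBark n) :
    S.dot (S.pos n) S.D = (S.leaves : ℝ) - 2 -
      ∑ j ∈ univ.filter (fun j => ¬ Twig S.Γ j), nsum S.Γ n j := by
  classical
  have h1 : S.dot (S.pos n) S.D = ∑ j, S.dot (S.pos n) (S.cls (S.comp j)) := by
    rw [D, map_sum]
  have h2 : ∑ j ∈ univ.filter (fun j => Twig S.Γ j), S.dot (S.pos n) (S.cls (S.comp j)) = 0 := by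
    refine Finset.sum_eq_zero fun j hj => ?_
    exact hn.2 j (Finset.mem_filter.1 hj).2
  have h3 : ∑ j ∈ univ.filter (fun j => ¬ Twig S.Γ j), S.dot (S.pos n) (S.cls (S.comp j)) =
      ∑ j ∈ univ.filter (fun j => ¬ Twig S.Γ j), ((valency S.Γ j : ℝ) - 2) -
        ∑ j ∈ univ.filter (fun j => ¬ Twig S.Γ j), nsum S.Γ n j := by
    rw [← Finset.sum_sub_distrib]
    refine Finset.sum_congr rfl fun j hj => ?_
    rw [pos_dot, hn.1 j (Finset.mem_filter.1 hj).2]
    ring
  have h4 : ∑ j ∈ univ.filter (fun j => Twig S.Γ j), ((valency S.Γ j : ℝ) - 2) = -(S.leaves : ℝ) := by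
    have h5 : ∀ j ∈ univ.filter (fun j => Twig S.Γ j), ((valency S.Γ j : ℝ) - 2) =
        - if valency S.Γ j = 1 then 1 else 0 := by
      intro j hj
      have hj' := (Finset.mem_filter.1 hj).2
      have h6 := twig_valency hj'
      have h7 := twig_pos hj'
      by_cases h8 : valency S.Γ j = 1
      · rw [if_pos h8, h8]
        norm_num
      · have h9 : valency S.Γ j = 2 := by omega
        rw [if_neg h8, h9]
        norm_num
    rw [Finset.sum_congr rfl h5, Finset.sum_neg_distrib, Finset.sum_boole, Finset.filter_filter,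
      leaves, ncard_eq]
    congr 2
    congr 1
    ext j
    simp only [Finset.mem_filter, Finset.mem_univ, true_and]
    exact ⟨fun h => h.2, fun h => ⟨twig_of_leaf h, h⟩⟩
  have h5 := sum_valency S.tree
  rw [← Finset.sum_filter_add_sum_filter_not univ (fun j => Twig S.Γ j), h4] at h5
  rw [h1, ← Finset.sum_filter_add_sum_filter_not univ (fun j => Twig S.Γ j), h2, h3]
  linarith

/-- The number of leaves is at most `2 (P · D) + 4`. -/
theorem leaves_le {n : S.ι → ℝ} (hn : S.IsBark n) :
    (S.leaves : ℝ) ≤ 2 * S.dot (S.pos n) S.D + 4 := by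
  classical
  have h1 := S.pos_D hn
  have h2 : ∑ j ∈ univ.filter (fun j => ¬ Twig S.Γ j), nsum S.Γ n j ≤ (S.leaves : ℝ) * (1 / 2) := by
    have h3 : ∑ j ∈ univ.filter (fun j => ¬ Twig S.Γ j), nsum S.Γ n j =
        ∑ d ∈ (univ : Finset (S.ι × S.ι)).filter
          (fun d => 3 ≤ valency S.Γ d.1 ∧ S.Γ.Adj d.1 d.2 ∧ Twig S.Γ d.2), n d.2 := by
      have h4 : ∀ j, nsum S.Γ n j = ∑ k, if S.Γ.Adj j k then n k else 0 := by
        intro j
        rw [nsum, ← Finset.sum_filter]
        congr 1
        ext k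
        simp
      rw [Finset.sum_filter, Finset.sum_filter, ← Finset.univ_product_univ, Finset.sum_product]
      refine Finset.sum_congr rfl fun j _ => ?_
      by_cases hj : Twig S.Γ j
      · rw [if_neg (by simpa using hj)]
        symm
        refine Finset.sum_eq_zero fun k _ => ?_
        rw [if_neg]
        rintro ⟨h5, -⟩
        have h6 := twig_valency hj
        change 3 ≤ valency S.Γ j at h5
        omega
      · rw [if_pos hj, h4]
        refine Finset.sum_congr rfl fun k _ => ?_
        by_cases hjk : S.Γ.Adj j k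
        · by_cases hk : Twig S.Γ k
          · have hv : 3 ≤ valency S.Γ j := by
              by_contra hv
              exact hj (twig_of_adj hk hjk (by omega))
            rw [if_pos hjk, if_pos ⟨hv, hjk, hk⟩]
          · rw [if_pos hjk, if_neg (fun h => hk h.2.2), hn.1 k hk]
        · rw [if_neg hjk, if_neg (fun h => hjk h.2.1)]
    rw [h3]
    have h4 : ∀ d ∈ (univ : Finset (S.ι × S.ι)).filter
        (fun d => 3 ≤ valency S.Γ d.1 ∧ S.Γ.Adj d.1 d.2 ∧ Twig S.Γ d.2), n d.2 ≤ (1 / 2 : ℝ) := by
      intro d hd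
      obtain ⟨h5, h6, h7⟩ := (Finset.mem_filter.1 hd).2
      exact S.bark_last hn h6 h5 h7
    have h5 := Finset.sum_le_card_nsmul _ (fun d : S.ι × S.ι => n d.2) (1 / 2 : ℝ) h4
    have h6 := card_darts S.Γ
    rw [nsmul_eq_mul] at h5
    refine h5.trans (mul_le_mul_of_nonneg_right ?_ (by norm_num))
    rw [leaves, ncard_eq]
    exact_mod_cast h6
  linarith

/-- `P` is orthogonal to the bark. -/
theorem pos_bark {n : S.ι → ℝ} (hn : S.IsBark n) :
    S.dot (S.pos n) (∑ i, n i • S.cls (S.comp i)) = 0 := by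
  classical
  rw [map_sum]
  refine Finset.sum_eq_zero fun i _ => ?_
  rw [map_smul, smul_eq_mul]
  by_cases hi : Twig S.Γ i
  · rw [hn.2 i hi, mul_zero]
  · rw [hn.1 i hi, zero_mul]

theorem pos_KD {n : S.ι → ℝ} (hn : S.IsBark n) :
    S.dot (S.pos n) (S.K + S.D) = S.dot (S.pos n) (S.pos n) := by
  have h1 : S.K + S.D = S.pos n + ∑ i, n i • S.cls (S.comp i) := by
    rw [pos]
    abel
  have h2 : S.dot (S.pos n) (S.K + S.D) =
      S.dot (S.pos n) (S.pos n + ∑ i, n i • S.cls (S.comp i)) := by rw [← h1]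
  rw [h2, map_add, pos_bark S hn, add_zero]

/-- The bark is effective. -/
theorem sub_pos_psef {n : S.ι → ℝ} (hn : S.IsBark n) : S.Psef (S.K + S.D - S.pos n) := by
  intro y hy
  have h1 : S.K + S.D - S.pos n = ∑ i, n i • S.cls (S.comp i) := by
    rw [pos]
    abel
  rw [h1, S.dot_comm, dot_sum]
  exact Finset.sum_nonneg fun i _ => mul_nonneg (S.bark_nonneg hn i) (hy _)

theorem dot_K23 (x : S.N) : S.dot x (S.K + (2 / 3 : ℝ) • S.D) =
    S.dot x (S.K + S.D) - 1 / 3 * S.dot x S.D := by
  rw [map_add, map_add, map_smul, smul_eq_mul]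
  ring

/-- The bound of the volume of a del Pezzo surface of Picard number one with discrepancies at least
`-2/3` (Jiang). -/
theorem vol_le {H : S.N} (hH : S.Nef H) (h : S.FromPlane H) : S.dot H H ≤ 32 / 3 := by
  rcases h with h | ⟨n, F, Z, β, hF, hZ, hb0, hb1, hHF, hHZ, hW⟩
  · rw [h]
    norm_num
  · have h1 : 0 ≤ S.dot H F := by
      rw [S.dot_comm]
      exact hF H hH
    have h2 : 0 ≤ S.dot H Z := by
      rw [S.dot_comm]
      exact hZ H hH
    have h3 := hW H hH
    rw [S.dot_comm, map_sub, map_add, map_smul, map_smul, smul_eq_mul, smul_eq_mul] at h3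
    generalize S.dot H F = x at *
    generalize S.dot H Z = s at *
    generalize S.dot H H = v at *
    have hn : (n : ℝ) ≤ 6 := by
      have h4 : β * (n : ℝ) ≤ 2 / 3 * n := mul_le_mul_of_nonneg_right hb1 (Nat.cast_nonneg n)
      linarith
    have hn6 : n ≤ 6 := by exact_mod_cast hn
    have h5 : v ≤ x * (2 * s + n * x) := by nlinarith
    have h6 : x * (2 * s + n * x) ≤ (2 - β) * (2 * (2 - n + β * n) + n * (2 - β)) := by
      have h7 : 2 * s + n * x ≤ 2 * (2 - n + β * n) + n * (2 - β) := by
        have := mul_le_mul_of_nonneg_left hHF (Nat.cast_nonneg n : (0 : ℝ) ≤ n)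
        linarith
      have h8 : 0 ≤ 2 * s + n * x := by positivity
      exact mul_le_mul hHF h7 h8 (by linarith)
    have h9 : 0 ≤ 2 - (n : ℝ) + β * n := h2.trans hHZ
    refine h5.trans (h6.trans ?_)
    interval_cases n <;> norm_num at h9 ⊢ <;> nlinarith

/-- The positive part has intersection number at most `31 / 3` with `D`. -/
theorem pos_D_le {n : S.ι → ℝ} (hn : S.IsBark n) (h2 : S.BMY) (h3 : S.MMP) : S.dot (S.pos n) S.D ≤ 31 / 3 := by
  have hnef := S.pos_nef hn (S.no_line h2)
  have hbmy := h2.1 _ hnef (S.sub_pos_psef hn)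
  have hKD := S.pos_KD hn
  rcases h3 with h3 | ⟨F, hF1, hF2, hF3⟩ | ⟨H, t, hH, hH0, hHP, hHK, hHD, ht, hps⟩
  · have h4 := h3 _ hnef
    rw [S.dot_comm, dot_K23, hKD] at h4
    linarith
  · exfalso
    -- `F` is nef
    have hFn : ∀ C, 0 ≤ S.dot (S.cls F) (S.cls C) := by
      intro C
      by_cases hC : F = C
      · rw [← hC, hF1]
      · exact S.nonneg _ _ hC
    have hF0 : S.cls F ≠ 0 := by
      intro h0
      rw [h0] at hF2
      simp at hF2
    have h4 := S.KD_pos hFn hF0
    rw [map_add, LinearMap.add_apply, hF2] at h4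
    -- `D · F` is an integer
    obtain ⟨m, hm⟩ : ∃ m : ℤ, S.dot S.D (S.cls F) = m := by
      choose m hm using fun i => S.integral (S.comp i) F
      refine ⟨∑ i, m i, ?_⟩
      rw [D, map_sum, LinearMap.sum_apply, Finset.sum_congr rfl fun i _ => hm i]
      push_cast
      rfl
    rw [map_add, LinearMap.add_apply, hF2, map_smul, LinearMap.smul_apply, smul_eq_mul] at hF3
    rw [hm] at h4 hF3
    have h5 : 2 < m := by
      have : (2 : ℝ) < m := by linarith
      exact_mod_cast this
    have h6 : (3 : ℝ) ≤ m := by exact_mod_cast h5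
    linarith
  · have hH1 := S.vol_le hH hHP
    have h4 := hps _ hnef
    rw [S.dot_comm, map_add, map_smul, smul_eq_mul, dot_K23, hKD] at h4
    -- `P · H`
    have h5 : S.dot (S.pos n) H = (t - 1) * S.dot H H -
        S.dot (∑ i, n i • S.cls (S.comp i)) H := by
      rw [pos, map_sub, map_add, LinearMap.sub_apply, LinearMap.add_apply, hHK, hHD]
      ring
    have h6 : 0 ≤ S.dot (∑ i, n i • S.cls (S.comp i)) H := by
      rw [map_sum, LinearMap.sum_apply]
      refine Finset.sum_nonneg fun i _ => ?_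
      rw [map_smul, LinearMap.smul_apply, smul_eq_mul, S.dot_comm]
      exact mul_nonneg (S.bark_nonneg hn i) (hH _)
    have h7 : (1 - 2 / 3 * t) * S.dot (S.pos n) H ≤ (1 - 2 / 3 * t) * ((t - 1) * S.dot H H) :=
      mul_le_mul_of_nonneg_left (by linarith) (by linarith)
    have h8 : (1 - 2 / 3 * t) * (t - 1) ≤ 1 / 24 := by nlinarith [sq_nonneg (t - 5 / 4)]
    have h9 : (1 - 2 / 3 * t) * ((t - 1) * S.dot H H) ≤ 1 / 24 * S.dot H H := by
      rw [← mul_assoc]
      exact mul_le_mul_of_nonneg_right h8 hH0.le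
    linarith

theorem leaves_le_24 (h2 : S.BMY) (h3 : S.MMP) :
    S.leaves ≤ 24 := by
  obtain ⟨n, hn⟩ := S.bark_exists
  have h4 := S.leaves_le hn
  have h5 := S.pos_D_le hn h2 h3
  have h6 : (S.leaves : ℝ) < 25 := by linarith
  have h7 : S.leaves < 25 := by exact_mod_cast h6
  omega

theorem one_le_branching : 1 ≤ S.branching := by
  obtain ⟨i, hi⟩ := S.exists_branching
  rw [branching, Nat.one_le_iff_ne_zero]
  exact Set.ncard_ne_zero_of_mem (a := i) hi

theorem branching_le_22 (h2 : S.BMY) (h3 : S.MMP) :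
    S.branching ≤ 22 := by
  have h4 := S.leaves_le_24 h2 h3
  rcases branching_le S.tree with h | h
  · rw [branching, h.1]
    omega
  · rw [branching]
    rw [leaves] at h4
    omega

end Completion

end Pool.H81.EN
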