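import Pool.Agent.H81.EN.Affine

/-!
# Peeling

If `V \ D` contains no affine line, then `P = K + D - Bk D` is nef. Only intersection numbers are
used, among them those with an ample divisor with support `D`.
-/

set_option autoImplicit false

namespace Pool.H81.EN

open Finset

section Graph

variable {ι : Type} [Fintype ι]

/-- A path that enters a twig stays in it. -/
theorem all_twig {Γ : SimpleGraph ι} : ∀ (j k : ι) (q : Γ.Walk j k), q.IsPath →
    ∀ (l : ι) (r : Γ.Walk j l), r.IsPath → valency Γ l = 1 → (∀ w ∈ r.support, valency Γ w ≤ 2) →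
      ∀ u, Γ.Adj j u → u ∉ q.support → u ∉ r.support → Twig Γ k := by
  classical
  intro j k q
  induction q with
  | nil =>
    intro _ l r _ hl hr _ _ _ _
    exact ⟨l, r, hl, hr⟩
  | @cons j w k hjw q ih =>
    intro hq l r hr hl hd u hu huq hur
    have huw : u ≠ w := by
      rintro rfl
      exact huq (by simp)
    cases r with
    | nil =>
      exfalso
      have h1 := nbr_one hl hu
      have h2 : w ∈ Γ.neighborFinset j := by simpa using hjw
      rw [h1, Finset.mem_singleton] at h2
      exact huw h2.symm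
    | @cons _ w' _ hjw' r =>
      have h1 := (nbr_two (hd j (by simp)) hu hjw huw).1
      have h2 : w' ∈ Γ.neighborFinset j := by simpa using hjw'
      have h3 : w' ≠ u := by
        rintro rfl
        exact hur (by simp)
      rw [h1, Finset.mem_insert, Finset.mem_singleton] at h2
      have h4 : w' = w := h2.resolve_left h3
      subst h4
      rw [SimpleGraph.Walk.cons_isPath_iff] at hq hr
      exact ih hq.1 l r hr.1 hl (fun x hx => hd x (by simp [hx])) j hjw.symm hq.2 hr.2

/-- If all neighbours of `i` belong to twigs, so do all other vertices. -/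
theorem fork {Γ : SimpleGraph ι} (hc : Γ.Connected) {i : ι} (hi : ¬ Twig Γ i)
    (h : ∀ j, Γ.Adj i j → Twig Γ j) (k : ι) (hk : k ≠ i) : Twig Γ k := by
  classical
  obtain ⟨q0⟩ := hc.preconnected i k
  have hq := q0.bypass_isPath
  generalize q0.bypass = q at hq
  cases q with
  | nil => exact absurd rfl hk
  | @cons _ j _ hij q =>
    obtain ⟨l, r, hl, hr⟩ := h j hij
    rw [SimpleGraph.Walk.cons_isPath_iff] at hq
    refine all_twig j k q hq.1 l r.bypass r.bypass_isPath hl (fun w hw => hr w
      (SimpleGraph.Walk.support_bypass_subset_support r hw)) i hij.symm hq.2 (fun hmem => hi ?_)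
    have h1 := SimpleGraph.Walk.support_bypass_subset_support r hmem
    exact ⟨l, r.dropUntil i h1, hl, fun x hx => hr x
      (SimpleGraph.Walk.support_dropUntil_subset_support _ h1 hx)⟩

/-- If two leaves lie in one twig, the graph is a chain. -/
theorem chain_all {Γ : SimpleGraph ι} (hc : Γ.Connected) {l l' : ι} (hl : valency Γ l = 1)
    (hl' : valency Γ l' = 1) (hne : l ≠ l') (r : Γ.Walk l l') (hr : ∀ w ∈ r.support, valency Γ w ≤ 2)
    (k : ι) : Twig Γ k := by
  classical
  obtain ⟨q0⟩ := hc.preconnected l k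
  have hq := q0.bypass_isPath
  generalize q0.bypass = q at hq
  have hr1 := r.bypass_isPath
  have hr2 : ∀ w ∈ r.bypass.support, valency Γ w ≤ 2 := fun w hw => hr w
    (SimpleGraph.Walk.support_bypass_subset_support r hw)
  generalize r.bypass = r' at hr1 hr2
  cases q with
  | nil => exact twig_of_leaf hl
  | @cons _ w _ hlw q =>
    cases r' with
    | nil => exact absurd rfl hne
    | @cons _ w' _ hlw' r' =>
      have h1 := nbr_one hl hlw
      have h2 : w' ∈ Γ.neighborFinset l := by simpa using hlw'
      rw [h1, Finset.mem_singleton] at h2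
      subst h2
      rw [SimpleGraph.Walk.cons_isPath_iff] at hq hr1
      exact all_twig w' k q hq.1 l' r' hr1.1 hl' (fun x hx => hr2 x (by simp [hx])) l hlw.symm
        hq.2 hr1.2

/-- In every twig the maximum is attained where the right hand side does not vanish. -/
theorem exists_max_leaf {Γ : SimpleGraph ι} [DecidableRel Γ.Adj] {a c e : ι → ℝ}
    (ha : ∀ w, Twig Γ w → 2 ≤ a w) (hc0 : ∀ i, ¬ Twig Γ i → c i = 0) (hc : ∀ i, 0 ≤ c i)
    (he : ∀ i, e i = 0 ∨ 1 ≤ e i) (hs : ∀ j, Twig Γ j → a j * c j - nsum Γ c j = e j)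
    {l : ι} (hl : valency Γ l = 1) :
    ∃ (m : ι) (p : Γ.Walk m l), (∀ w ∈ p.support, valency Γ w ≤ 2) ∧ c l ≤ c m * e m := by
  classical
  let T : Finset ι := univ.filter fun j => ∃ p : Γ.Walk j l, ∀ w ∈ p.support, valency Γ w ≤ 2
  have hlT : l ∈ T := by
    simp only [T, Finset.mem_filter, Finset.mem_univ, true_and]
    refine ⟨SimpleGraph.Walk.nil, fun w hw => ?_⟩
    rw [SimpleGraph.Walk.support_nil, List.mem_singleton] at hw
    rw [hw, hl]
    omega
  obtain ⟨v, hvT, hv⟩ := Finset.exists_max_image T c ⟨l, hlT⟩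
  by_contra hcon
  push Not at hcon
  have hlt : ∀ u ∈ T, c u * e u < c l := by
    intro u hu
    obtain ⟨p, hp⟩ := (Finset.mem_filter.1 hu).2
    exact hcon u p hp
  have hlv := hv l hlT
  have hM : 0 < c v := by
    have h1 := hlt v hvT
    have h2 : 0 ≤ c v * e v := by
      rcases he v with h | h
      · rw [h, mul_zero]
      · exact mul_nonneg (hc v) (by linarith)
    linarith
  -- the right hand side vanishes where the maximum is attained
  have hev : ∀ u ∈ T, c u = c v → e u = 0 := by
    intro u hu huv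
    rcases he u with h | h
    · exact h
    · exfalso
      have h1 := hlt u hu
      rw [huv] at h1
      nlinarith
  -- the neighbours
  have hnb : ∀ u ∈ T, ∀ y, Γ.Adj u y → c y ≤ c v := by
    intro u hu y huy
    by_cases hy : valency Γ y ≤ 2
    · obtain ⟨p, hp⟩ := (Finset.mem_filter.1 hu).2
      refine hv y ?_
      simp only [T, Finset.mem_filter, Finset.mem_univ, true_and]
      refine ⟨SimpleGraph.Walk.cons huy.symm p, fun w hw => ?_⟩
      rw [SimpleGraph.Walk.support_cons, List.mem_cons] at hw
      rcases hw with rfl | hw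
      · exact hy
      · exact hp w hw
    · rw [hc0 y (fun h => hy (twig_valency h))]
      exact hM.le
  have key : ∀ (u l' : ι) (p : Γ.Walk u l'), l' = l → (∀ w ∈ p.support, valency Γ w ≤ 2) →
      c u = c v → False := by
    intro u l' p
    induction p with
    | @nil u =>
      rintro rfl _ hu
      have h1 := hs u (twig_of_leaf hl)
      rw [hev u hlT hu, hu] at h1
      have h2 := ha u (twig_of_leaf hl)
      have hcard := hl
      rw [valency_eq, ← SimpleGraph.card_neighborFinset_eq_degree] at hcard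
      have h3 : nsum Γ c u ≤ c v := by
        have := Finset.sum_le_card_nsmul (Γ.neighborFinset u) c (c v)
          (fun w hw => hnb u hlT w (by simpa using hw))
        rw [hcard] at this
        simpa [nsum] using this
      nlinarith
    | @cons u w l' huw p ih =>
      intro hl' hp hu
      subst hl'
      have huT : u ∈ T := by
        simp only [T, Finset.mem_filter, Finset.mem_univ, true_and]
        exact ⟨SimpleGraph.Walk.cons huw p, hp⟩
      have ht : Twig Γ u := ⟨l', SimpleGraph.Walk.cons huw p, hl, hp⟩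
      refine ih rfl (fun y hy => hp y (by simp [hy])) ?_
      have h1 := hs u ht
      rw [hev u huT hu, hu] at h1
      have h2 := ha u ht
      have h3 := twig_valency ht
      rw [valency_eq, ← SimpleGraph.card_neighborFinset_eq_degree] at h3
      have h4 : (c v - c w) + nsum Γ c u ≤ ((Γ.neighborFinset u).card : ℝ) * c v := by
        have h5 : ((Γ.neighborFinset u).card : ℝ) * c v - nsum Γ c u =
            ∑ y ∈ Γ.neighborFinset u, (c v - c y) := by
          rw [Finset.sum_sub_distrib, Finset.sum_const, nsmul_eq_mul, nsum]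
        have h6 : c v - c w ≤ ∑ y ∈ Γ.neighborFinset u, (c v - c y) := by
          refine Finset.single_le_sum (f := fun y => c v - c y)
            (fun y hy => sub_nonneg.2 (hnb u huT y (by simpa using hy))) ?_
          simpa using huw
        linarith
      have h7 : ((Γ.neighborFinset u).card : ℝ) ≤ 2 := by exact_mod_cast h3
      have h8 := hnb u huT w huw
      nlinarith
  obtain ⟨p, hp⟩ := (Finset.mem_filter.1 hvT).2
  exact key v l p rfl hp rfl

/-- The sum over the leaves. -/
theorem sum_leaves_le {Γ : SimpleGraph ι} [DecidableRel Γ.Adj] (hcon : Γ.Connected) {a c e : ι → ℝ}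
    (ha : ∀ w, Twig Γ w → 2 ≤ a w) (hc0 : ∀ i, ¬ Twig Γ i → c i = 0) (hc : ∀ i, 0 ≤ c i)
    (he : ∀ i, e i = 0 ∨ 1 ≤ e i) (hs : ∀ j, Twig Γ j → a j * c j - nsum Γ c j = e j)
    {i0 : ι} (hi0 : ¬ Twig Γ i0) :
    ∑ l ∈ univ.filter (fun l => valency Γ l = 1), c l ≤ ∑ j, c j * e j := by
  classical
  have h1 : ∀ l, ∃ m : ι, valency Γ l = 1 → ∃ p : Γ.Walk m l,
      (∀ w ∈ p.support, valency Γ w ≤ 2) ∧ c l ≤ c m * e m := by
    intro l
    by_cases hl : valency Γ l = 1
    · obtain ⟨m, p, hp⟩ := exists_max_leaf ha hc0 hc he hs hl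
      exact ⟨m, fun _ => ⟨p, hp⟩⟩
    · exact ⟨l, fun h => absurd h hl⟩
  choose f hf using h1
  have hinj : Set.InjOn f (univ.filter (fun l => valency Γ l = 1) : Finset ι) := by
    intro l hl l' hl' hll
    have h2 := (Finset.mem_filter.1 hl).2
    have h3 := (Finset.mem_filter.1 hl').2
    have hf' := hf l' h3
    rw [← hll] at hf'
    obtain ⟨p, hp, -⟩ := hf l h2
    obtain ⟨p', hp', -⟩ := hf'
    by_contra hne
    refine hi0 (chain_all hcon h2 h3 hne (p.reverse.append p') (fun w hw => ?_) i0)
    rw [SimpleGraph.Walk.mem_support_append_iff, SimpleGraph.Walk.support_reverse,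
      List.mem_reverse] at hw
    rcases hw with hw | hw
    · exact hp w hw
    · exact hp' w hw
  have hnn : ∀ j, 0 ≤ c j * e j := by
    intro j
    rcases he j with h | h
    · rw [h, mul_zero]
    · exact mul_nonneg (hc j) (by linarith)
  calc ∑ l ∈ univ.filter (fun l => valency Γ l = 1), c l
      ≤ ∑ l ∈ univ.filter (fun l => valency Γ l = 1), c (f l) * e (f l) :=
        Finset.sum_le_sum fun l hl => (hf l (Finset.mem_filter.1 hl).2).choose_spec.2
    _ = ∑ j ∈ (univ.filter (fun l => valency Γ l = 1)).image f, c j * e j :=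
        (Finset.sum_image (f := fun j => c j * e j) hinj).symm
    _ ≤ ∑ j, c j * e j :=
        Finset.sum_le_sum_of_subset_of_nonneg (Finset.subset_univ _) fun j _ _ => hnn j

/-- The operator of the twigs is symmetric. -/
theorem nsum_symm (Γ : SimpleGraph ι) [DecidableRel Γ.Adj] (x y : ι → ℝ) :
    ∑ j, x j * nsum Γ y j = ∑ j, y j * nsum Γ x j := by
  have h : ∀ (x y : ι → ℝ), ∑ j, x j * nsum Γ y j =
      ∑ j, ∑ k, if Γ.Adj j k then x j * y k else 0 := by
    intro x y
    refine Finset.sum_congr rfl fun j _ => ?_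
    rw [nsum, Finset.mul_sum, ← Finset.sum_filter]
    refine Finset.sum_congr ?_ fun _ _ => rfl
    ext k
    simp
  rw [h x y, h y x, Finset.sum_comm]
  refine Finset.sum_congr rfl fun j _ => Finset.sum_congr rfl fun k _ => ?_
  by_cases hjk : Γ.Adj j k
  · rw [if_pos hjk, if_pos hjk.symm, mul_comm]
  · rw [if_neg hjk, if_neg (fun h' => hjk h'.symm)]

end Graph

namespace Completion

variable (S : Completion)

/-- The correction of a class by a divisor with support in the twigs. -/
theorem corr (x : S.N) (hx : ∀ k, Twig S.Γ k → 0 ≤ S.dot x (S.cls (S.comp k))) :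
    ∃ s : S.ι → ℝ, (∀ i, ¬ Twig S.Γ i → s i = 0) ∧ (∀ i, 0 ≤ s i) ∧
      (∀ k, Twig S.Γ k → S.dot (x + ∑ i, s i • S.cls (S.comp i)) (S.cls (S.comp k)) = 0) := by
  classical
  have ha : ∀ w, Twig S.Γ w → 2 ≤ S.a w := fun w hw => S.two_le w (twig_valency hw)
  obtain ⟨s, hs0, hs⟩ := exists_sol S.Γ ha fun k => S.dot x (S.cls (S.comp k))
  refine ⟨s, hs0, fun i => ?_, fun k hk => ?_⟩
  · have := max_principle (a := S.a) (x := fun i => -s i) ha (fun i hi => by simp [hs0 i hi])
      (fun j hj => by
        have h1 := hs j hj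
        have h2 := hx j hj
        rw [nsum_neg]
        linarith) i
    linarith
  · rw [map_add, LinearMap.add_apply, sum_dot]
    have := hs k hk
    linarith

/-- When the corrected class is nef. -/
theorem corr_nef {x : S.N} {s : S.ι → ℝ}
    (hk : ∀ k, Twig S.Γ k → S.dot (x + ∑ i, s i • S.cls (S.comp i)) (S.cls (S.comp k)) = 0)
    (hx : ∀ C, (∀ k, Twig S.Γ k → S.comp k ≠ C) →
      0 ≤ S.dot (x + ∑ i, s i • S.cls (S.comp i)) (S.cls C)) :
    S.Nef (x + ∑ i, s i • S.cls (S.comp i)) := by
  intro C
  by_cases hC : ∃ k, Twig S.Γ k ∧ S.comp k = C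
  · obtain ⟨k, hkt, rfl⟩ := hC
    exact (hk k hkt).ge
  · push Not at hC
    exact hx C hC

theorem sum_dot_nonneg {s : S.ι → ℝ} (hs0 : ∀ i, ¬ Twig S.Γ i → s i = 0) (hs : ∀ i, 0 ≤ s i)
    {C : S.Curve} (hC : ∀ k, Twig S.Γ k → S.comp k ≠ C) :
    0 ≤ S.dot (∑ i, s i • S.cls (S.comp i)) (S.cls C) := by
  rw [S.dot_comm, dot_sum]
  refine Finset.sum_nonneg fun i _ => ?_
  by_cases hi : Twig S.Γ i
  · refine mul_nonneg (hs i) ?_
    rw [S.dot_comm]
    exact S.nonneg _ _ (hC i hi)
  · rw [hs0 i hi, zero_mul]

/-- `P` is pseudo-effective. -/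
theorem pos_psef {n : S.ι → ℝ} (hn : S.IsBark n) : S.Psef (S.pos n) := by
  intro y hy
  obtain ⟨s, hs0, hs, hk⟩ := S.corr y fun k _ => hy _
  have hnef := S.corr_nef hk fun C hC => by
    rw [map_add, LinearMap.add_apply]
    exact add_nonneg (hy C) (S.sum_dot_nonneg hs0 hs hC)
  have h1 : S.dot (S.pos n) (∑ i, s i • S.cls (S.comp i)) = 0 := by
    rw [dot_sum]
    refine Finset.sum_eq_zero fun i _ => ?_
    by_cases hi : Twig S.Γ i
    · rw [hn.2 i hi, mul_zero]
    · rw [hs0 i hi, zero_mul]
  have h2 : S.dot (y + ∑ i, s i • S.cls (S.comp i)) (∑ i, n i • S.cls (S.comp i)) = 0 := by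
    rw [dot_sum]
    refine Finset.sum_eq_zero fun i _ => ?_
    by_cases hi : Twig S.Γ i
    · rw [hk i hi, mul_zero]
    · rw [hn.1 i hi, zero_mul]
  have h3 : S.dot (S.pos n) y = S.dot (S.K + S.D) (y + ∑ i, s i • S.cls (S.comp i)) := by
    have h4 : S.dot (S.pos n) (y + ∑ i, s i • S.cls (S.comp i)) = S.dot (S.pos n) y := by
      rw [map_add, h1, add_zero]
    rw [← h4]
    nth_rewrite 1 [pos]
    rw [map_sub, LinearMap.sub_apply, S.dot_comm (∑ i, n i • S.cls (S.comp i)), h2, sub_zero]
  rw [h3]
  by_cases h0 : y + ∑ i, s i • S.cls (S.comp i) = 0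
  · rw [h0, map_zero]
  · exact (S.KD_pos hnef h0).le

/-- `P` is nonnegative on the components of `D`. -/
theorem pos_comp {n : S.ι → ℝ} (hn : S.IsBark n) (i : S.ι) :
    0 ≤ S.dot (S.pos n) (S.cls (S.comp i)) := by
  classical
  by_contra hneg
  push Not at hneg
  have hi : ¬ Twig S.Γ i := fun h => by
    rw [hn.2 i h] at hneg
    exact lt_irrefl _ hneg
  have hP := S.pos_dot n i
  rw [hn.1 i hi] at hP
  have hn0 : ∀ k, ¬ Twig S.Γ k → n k = 0 := hn.1
  -- all neighbours belong to twigs
  have hall : ∀ j, S.Γ.Adj i j → Twig S.Γ j := by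
    intro j hij
    by_contra hj
    by_cases hv : valency S.Γ i ≤ 2
    · -- no neighbour belongs to a twig
      have h1 : nsum S.Γ n i = 0 := by
        refine Finset.sum_eq_zero fun k hk => hn0 k fun hk' => hi ?_
        exact twig_of_adj hk' (by simpa using hk) hv
      have h2 : valency S.Γ i ≠ 1 := fun h => hi (twig_of_leaf h)
      have h3 := valency_pos hij
      have h4 : valency S.Γ i = 2 := by omega
      rw [h1, h4] at hP
      norm_num at hP
      linarith
    · push Not at hv
      have h1 : nsum S.Γ n i ≤ ((valency S.Γ i : ℝ) - 1) * (1 / 2) := by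
        have hjm : j ∈ S.Γ.neighborFinset i := by simpa using hij
        have h2 : nsum S.Γ n i = ∑ k ∈ (S.Γ.neighborFinset i).erase j, n k := by
          rw [nsum, ← Finset.add_sum_erase _ _ hjm, hn0 j hj, zero_add]
        have h3 : ∀ k ∈ (S.Γ.neighborFinset i).erase j, n k ≤ 1 / 2 := by
          intro k hk
          have hk' : S.Γ.Adj i k := by simpa using Finset.mem_of_mem_erase hk
          by_cases hkt : Twig S.Γ k
          · exact S.bark_last hn hk' (by omega) hkt
          · rw [hn0 k hkt]
            norm_num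
        have h4 := Finset.sum_le_card_nsmul _ _ _ h3
        rw [Finset.card_erase_of_mem hjm, SimpleGraph.card_neighborFinset_eq_degree,
          ← valency_eq, nsmul_eq_mul, Nat.cast_sub (by omega)] at h4
        rw [h2]
        simpa using h4
      have h5 : (3 : ℝ) ≤ valency S.Γ i := by exact_mod_cast hv
      linarith
  have hfork := fork S.tree.1 hi hall
  obtain ⟨b, hb, hample⟩ := S.affine
  have hAnef : S.Nef (∑ k, b k • S.cls (S.comp k)) := by
    intro C
    by_cases h0 : S.cls C = 0
    · rw [h0, map_zero]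
    · exact (hample _ (S.cls_psef C) h0).le
  have h1 := S.pos_psef hn _ hAnef
  rw [dot_sum, Finset.sum_eq_single i] at h1
  · have := hb i
    nlinarith
  · intro k _ hk
    rw [hn.2 k (hfork k hk), mul_zero]
  · intro h
    exact absurd (mem_univ i) h

/-- Peeling: if `V \ D` contains no affine line, then `P` is nef. -/
theorem pos_nef {n : S.ι → ℝ} (hn : S.IsBark n) (hL : ∀ C, ¬ S.IsLine C) : S.Nef (S.pos n) := by
  classical
  intro C
  by_contra hneg
  push Not at hneg
  have hpsef := S.pos_psef hn
  have ha : ∀ w, Twig S.Γ w → 2 ≤ S.a w := fun w hw => S.two_le w (twig_valency hw)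
  -- `C` is not a component of `D`
  have hCD : ∀ i, S.comp i ≠ C := by
    rintro i rfl
    exact absurd (S.pos_comp hn i) (not_le.2 hneg)
  have hC0 : S.cls C ≠ 0 := by
    intro h0
    rw [h0, map_zero] at hneg
    exact lt_irrefl _ hneg
  -- the self-intersection number of `C` is negative
  have hCC : S.dot (S.cls C) (S.cls C) < 0 := by
    by_contra h
    push Not at h
    have : S.Nef (S.cls C) := by
      intro C'
      by_cases hC' : C = C'
      · rw [← hC']
        exact h
      · exact S.nonneg _ _ hC'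
    exact absurd (hpsef _ this) (not_le.2 hneg)
  -- intersection numbers with the components
  have he : ∀ i, S.dot (S.cls C) (S.cls (S.comp i)) = 0 ∨
      1 ≤ S.dot (S.cls C) (S.cls (S.comp i)) := by
    intro i
    obtain ⟨m, hm⟩ := S.integral C (S.comp i)
    have h1 := S.nonneg C (S.comp i) (hCD i).symm
    rw [hm] at h1 ⊢
    have h2 : 0 ≤ m := by exact_mod_cast h1
    rcases h2.eq_or_lt with h3 | h3
    · left
      rw [← h3]
      norm_num
    · right
      exact_mod_cast h3
  have he0 : ∀ i, 0 ≤ S.dot (S.cls C) (S.cls (S.comp i)) := fun i =>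
    S.nonneg C (S.comp i) (hCD i).symm
  -- the coefficients of the bark are at most `1`
  have hn1 : ∀ i, n i ≤ 1 := by
    intro i
    have h := (S.isBark_iff n).1 hn
    have := max_principle (a := S.a) (x := fun i => n i - 1) ha (fun i hi => by simp [hn.1 i hi])
      (fun j hj => by
        have h1 := h.2 j hj
        have h2 := ha j hj
        have h3 : nsum S.Γ (fun i => n i - 1) j = nsum S.Γ n j - (valency S.Γ j : ℝ) := by
          rw [nsum, nsum, Finset.sum_sub_distrib, Finset.sum_const,
            SimpleGraph.card_neighborFinset_eq_degree, valency_eq]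
          simp
        rw [h3]
        linarith) i
    linarith
  have hDC : S.dot S.D (S.cls C) = ∑ i, S.dot (S.cls C) (S.cls (S.comp i)) := by
    rw [S.dot_comm, D, map_sum]
  have hNC : S.dot (∑ i, n i • S.cls (S.comp i)) (S.cls C) =
      ∑ i, n i * S.dot (S.cls C) (S.cls (S.comp i)) := by
    rw [S.dot_comm, dot_sum]
  have hle : ∑ i, n i * S.dot (S.cls C) (S.cls (S.comp i)) ≤
      ∑ i, S.dot (S.cls C) (S.cls (S.comp i)) := by
    refine Finset.sum_le_sum fun i _ => ?_
    have := mul_le_mul_of_nonneg_right (hn1 i) (he0 i)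
    linarith
  have hPC : S.dot (S.pos n) (S.cls C) = S.dot S.K (S.cls C) +
      ∑ i, S.dot (S.cls C) (S.cls (S.comp i)) -
        ∑ i, n i * S.dot (S.cls C) (S.cls (S.comp i)) := by
    rw [pos, map_sub, map_add, LinearMap.sub_apply, LinearMap.add_apply, hDC, hNC]
  -- `C` is a `(-1)`-curve
  obtain ⟨k, hk⟩ := S.integral_K C
  obtain ⟨m, hm⟩ := S.integral C C
  have hg := S.genus C
  have hk0 : k < 0 := by
    have : (k : ℝ) < 0 := by
      rw [← hk]
      linarith
    exact_mod_cast this
  have hm0 : m < 0 := by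
    rw [hm] at hCC
    exact_mod_cast hCC
  rw [hk, hm] at hg
  have hg' : -2 ≤ k + m := by exact_mod_cast hg
  have hk1 : k = -1 := by omega
  have hm1 : m = -1 := by omega
  have hKC : S.dot S.K (S.cls C) = -1 := by
    rw [hk, hk1]
    norm_num
  have hCC1 : S.dot (S.cls C) (S.cls C) = -1 := by
    rw [hm, hm1]
    norm_num
  -- `D · C` is an integer, and it is at least `1`
  obtain ⟨d, hd⟩ : ∃ d : ℤ, S.dot S.D (S.cls C) = d := by
    choose m hm using fun i => S.integral C (S.comp i)
    refine ⟨∑ i, m i, ?_⟩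
    rw [hDC, Finset.sum_congr rfl fun i _ => hm i]
    push_cast
    rfl
  obtain ⟨b, hb, hample⟩ := S.affine
  have hd1 : 1 ≤ d := by
    have h1 := hample _ (S.cls_psef C) hC0
    rw [S.dot_comm, dot_sum] at h1
    have h2 : ∃ i, 0 < S.dot (S.cls C) (S.cls (S.comp i)) := by
      by_contra hcon
      push Not at hcon
      have : ∑ i, b i * S.dot (S.cls C) (S.cls (S.comp i)) ≤ 0 :=
        Finset.sum_nonpos fun i _ => mul_nonpos_of_nonneg_of_nonpos (hb i).le (hcon i)
      linarith
    obtain ⟨i, hi⟩ := h2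
    have h3 : 0 < S.dot S.D (S.cls C) := by
      rw [hDC]
      exact Finset.sum_pos' (fun j _ => he0 j) ⟨i, mem_univ i, hi⟩
    rw [hd] at h3
    have : 0 < d := by exact_mod_cast h3
    omega
  have hd2 : d ≠ 1 := by
    rintro rfl
    refine hL C ⟨hCD, by rw [hKC, hCC1]; norm_num, ?_⟩
    rw [hd]
    norm_num
  have hd3 : 2 ≤ d := by omega
  have hd4 : (2 : ℝ) ≤ d := by exact_mod_cast hd3
  -- hence `N · C > 1`
  have hN1 : 1 < ∑ i, n i * S.dot (S.cls C) (S.cls (S.comp i)) := by
    rw [← hDC, hd] at hPC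
    linarith
  -- the correction of `C`
  obtain ⟨c, hc0, hc, hck⟩ := S.corr (S.cls C) fun k _ => he0 k
  have hsol : ∀ j, Twig S.Γ j → S.a j * c j - nsum S.Γ c j =
      S.dot (S.cls C) (S.cls (S.comp j)) := by
    intro j hj
    have := hck j hj
    rw [map_add, LinearMap.add_apply, sum_dot] at this
    linarith
  have hlt : ∑ j, c j * S.dot (S.cls C) (S.cls (S.comp j)) < 1 := by
    by_contra hcon
    push Not at hcon
    have hnef := S.corr_nef hck fun C' hC' => by
      rw [map_add, LinearMap.add_apply]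
      by_cases h : C = C'
      · rw [← h, hCC1, S.dot_comm (∑ i, c i • S.cls (S.comp i)), dot_sum]
        linarith
      · exact add_nonneg (S.nonneg _ _ h) (S.sum_dot_nonneg hc0 hc hC')
    have h1 := hpsef _ hnef
    rw [map_add, dot_sum] at h1
    have h2 : ∑ i, c i * S.dot (S.pos n) (S.cls (S.comp i)) = 0 := by
      refine Finset.sum_eq_zero fun i _ => ?_
      by_cases hi : Twig S.Γ i
      · rw [hn.2 i hi, mul_zero]
      · rw [hc0 i hi, zero_mul]
    linarith
  -- a vertex off the twigs
  obtain ⟨i0, hi0⟩ : ∃ i0, ¬ Twig S.Γ i0 := by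
    by_contra hcon
    push Not at hcon
    have h1 : S.pos n ≠ 0 := by
      intro h0
      rw [h0] at hneg
      simp at hneg
    have h2 := hample _ hpsef h1
    rw [S.dot_comm, dot_sum, Finset.sum_eq_zero] at h2
    · exact lt_irrefl _ h2
    · intro i _
      rw [hn.2 i (hcon i), mul_zero]
  have hleaf := sum_leaves_le S.tree.1 ha hc0 hc he hsol hi0
  have hNleaf : ∑ i, n i * S.dot (S.cls C) (S.cls (S.comp i)) =
      ∑ l ∈ univ.filter (fun l => valency S.Γ l = 1), c l := by
    have hb' := (S.isBark_iff n).1 hn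
    have h1 : ∀ i, n i * S.dot (S.cls C) (S.cls (S.comp i)) =
        S.a i * n i * c i - n i * nsum S.Γ c i := by
      intro i
      by_cases hi : Twig S.Γ i
      · rw [← hsol i hi]
        ring
      · rw [hn.1 i hi]
        ring
    have h2 : ∀ i, (if valency S.Γ i = 1 then c i else 0) =
        S.a i * n i * c i - c i * nsum S.Γ n i := by
      intro i
      by_cases hi : Twig S.Γ i
      · have h3 := hb'.2 i hi
        have h4 : S.a i * n i * c i - c i * nsum S.Γ n i = c i * (2 - (valency S.Γ i : ℝ)) := by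
          rw [← h3]
          ring
        rw [h4]
        have h5 := twig_valency hi
        have h6 := twig_pos hi
        by_cases h7 : valency S.Γ i = 1
        · rw [if_pos h7, h7]
          norm_num
        · have h8 : valency S.Γ i = 2 := by omega
          rw [if_neg h7, h8]
          norm_num
      · rw [hc0 i hi]
        simp
    rw [Finset.sum_filter, Finset.sum_congr rfl fun i _ => h1 i,
      Finset.sum_congr rfl fun i _ => h2 i, Finset.sum_sub_distrib, Finset.sum_sub_distrib,
      nsum_symm]
  linarith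

end Completion

end Pool.H81.EN
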